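import Pool.Agent.U756.CS.Pois
import Pool.Agent.R958.Animal

/-!
# Segments and cells
-/

set_option autoImplicit false

namespace Pool.Agent.U756.CS

open MeasureTheory ProbabilityTheory Set Filter
open scoped ENNReal NNReal
open Pool.Agent.Helper712_LP (E cell)
open Pool.Agent.H592 (V Bx mem_Bx card_Bx touches small bad one? one?_true one?_false)

noncomputable section

/-- The unit vector in the direction `θ`. -/
def dir (θ : ℝ) : E 2 := !₂[Real.cos θ, Real.sin θ]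

/-- The segment from `x` to `x + ℓ (cos θ, sin θ)`. -/
def seg (x : E 2) (θ ℓ : ℝ) : Set (E 2) := segment ℝ x (x + ℓ • dir θ)

theorem abs_dir (θ : ℝ) (j : Fin 2) : |dir θ j| ≤ 1 := by
  unfold dir
  fin_cases j
  · simpa using Real.abs_cos_le_one θ
  · simpa using Real.abs_sin_le_one θ

theorem measurable_dir : Measurable dir := by
  unfold dir
  refine (WithLp.measurable_toLp 2 (Fin 2 → ℝ)).comp (measurable_pi_iff.mpr fun j => ?_)
  fin_cases j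
  · exact Real.measurable_cos
  · exact Real.measurable_sin

/-- the cell of a point -/
abbrev cl (y : E 2) : V 2 := cell 1 y

theorem cl_apply (y : E 2) (j : Fin 2) : cl y j = ⌊y j⌋ := by
  unfold cl cell
  rw [div_one]

theorem floor_close {a b : ℝ} {k : ℕ} (h : |a - b| ≤ k) : |⌊a⌋ - ⌊b⌋| ≤ (k : ℤ) := by
  rw [abs_le] at h ⊢
  have h1 : ⌊a⌋ ≤ ⌊b⌋ + k := by
    rw [← Int.floor_add_natCast]
    exact Int.floor_le_floor (by linarith)
  have h2 : ⌊b⌋ ≤ ⌊a⌋ + k := by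
    rw [← Int.floor_add_natCast]
    exact Int.floor_le_floor (by linarith)
  constructor <;> linarith

theorem cl_close {a b : E 2} {k : ℕ} (h : ∀ j, |a j - b j| ≤ k) (j : Fin 2) :
    |cl a j - cl b j| ≤ (k : ℤ) := by
  rw [cl_apply, cl_apply]
  exact floor_close (h j)

theorem pt_sub (x : E 2) (θ u w : ℝ) (j : Fin 2) :
    |(x + u • dir θ) j - (x + w • dir θ) j| ≤ |u - w| := by
  have : (x + u • dir θ) j - (x + w • dir θ) j = (u - w) * dir θ j := by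
    simp only [PiLp.add_apply, PiLp.smul_apply, smul_eq_mul]
    ring
  rw [this, abs_mul]
  have h1 := abs_dir θ j
  nlinarith [abs_nonneg (u - w)]

/-- The cells near the segment, relative to the cell of the starting point. -/
def F (x : E 2) (θ ℓ : ℝ) : Finset (V 2) :=
  (Finset.range (⌊ℓ⌋₊ + 1)).biUnion fun n => Bx (cl (x + (n : ℝ) • dir θ) - cl x) 2

theorem mem_F {x : E 2} {θ ℓ : ℝ} {z : V 2} :
    z ∈ F x θ ℓ ↔ ∃ n : ℕ, n ≤ ⌊ℓ⌋₊ ∧ ∀ j, |z j - (cl (x + (n : ℝ) • dir θ) j - cl x j)| ≤ 2 := by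
  unfold F
  simp only [Finset.mem_biUnion, Finset.mem_range, mem_Bx, Nat.lt_succ_iff]
  rfl

theorem zero_mem_F (x : E 2) (θ ℓ : ℝ) : (0 : V 2) ∈ F x θ ℓ := by
  rw [mem_F]
  refine ⟨0, Nat.zero_le _, fun j => ?_⟩
  simp

theorem mem_seg {x y : E 2} {θ ℓ : ℝ} (hℓ : 0 ≤ ℓ) :
    y ∈ seg x θ ℓ ↔ ∃ u : ℝ, 0 ≤ u ∧ u ≤ ℓ ∧ y = x + u • dir θ := by
  unfold seg
  rw [segment_eq_image']
  constructor
  · rintro ⟨s, ⟨hs0, hs1⟩, rfl⟩
    refine ⟨s * ℓ, by positivity, by nlinarith, ?_⟩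
    simp only [add_sub_cancel_left, smul_smul]
  · rintro ⟨u, hu0, huℓ, rfl⟩
    rcases hℓ.eq_or_lt with h | h
    · have : u = 0 := by linarith
      subst this
      exact ⟨0, ⟨le_rfl, zero_le_one⟩, by simp⟩
    · refine ⟨u / ℓ, ⟨by positivity, by rw [div_le_one h]; exact huℓ⟩, ?_⟩
      simp only [add_sub_cancel_left, smul_smul]
      rw [div_mul_cancel₀ _ h.ne']

/-- all cells near a point of the segment are in the shape -/
theorem near_mem_F {x y : E 2} {θ ℓ : ℝ} (hℓ : 0 ≤ ℓ) (hy : y ∈ seg x θ ℓ) {z : V 2}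
    (hz : ∀ j, |z j - cl y j| ≤ 1) : z - cl x ∈ F x θ ℓ := by
  obtain ⟨u, hu0, huℓ, rfl⟩ := (mem_seg hℓ).mp hy
  rw [mem_F]
  refine ⟨⌊u⌋₊, Nat.floor_le_floor huℓ, fun j => ?_⟩
  have h1 : ∀ j, |(x + u • dir θ) j - (x + ((⌊u⌋₊ : ℕ) : ℝ) • dir θ) j| ≤ ((1 : ℕ) : ℝ) := by
    intro j
    refine (pt_sub x θ _ _ j).trans ?_
    have h2 := Nat.floor_le hu0
    have h3 := Nat.lt_floor_add_one u
    rw [abs_le]
    push_cast
    constructor <;> linarith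
  have h2 := cl_close h1 j
  have h3 := hz j
  have h4 : (z - cl x) j = z j - cl x j := rfl
  rw [h4]
  rw [abs_le] at *
  push_cast at h2
  constructor <;> linarith [h2.1, h2.2, h3.1, h3.2]

theorem not_small_F {x : E 2} {θ ℓ : ℝ} {r : ℕ} (h : ¬ small r (F x θ ℓ)) : r ≤ ⌊ℓ⌋₊ + 4 := by
  unfold small at h
  push Not at h
  obtain ⟨a, ha, b, hb, j, hj⟩ := h
  rw [mem_F] at ha hb
  obtain ⟨n, hn, hn'⟩ := ha
  obtain ⟨k, hk, hk'⟩ := hb
  have h1 : ∀ j, |(x + (n : ℝ) • dir θ) j - (x + (k : ℝ) • dir θ) j| ≤ ((⌊ℓ⌋₊ : ℕ) : ℝ) := by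
    intro j
    refine (pt_sub x θ _ _ j).trans ?_
    have h2 : (n : ℝ) ≤ ⌊ℓ⌋₊ := by exact_mod_cast hn
    have h3 : (k : ℝ) ≤ ⌊ℓ⌋₊ := by exact_mod_cast hk
    have h4 : (0 : ℝ) ≤ n := Nat.cast_nonneg n
    have h5 : (0 : ℝ) ≤ k := Nat.cast_nonneg k
    rw [abs_le]
    constructor <;> linarith
  have h2 := cl_close h1 j
  have h3 := hn' j
  have h4 := hk' j
  rw [abs_le] at h2 h3 h4
  have h5 : |a j - b j| ≤ (⌊ℓ⌋₊ : ℤ) + 4 := by
    rw [abs_le]
    constructor <;> linarith [h2.1, h2.2, h3.1, h3.2, h4.1, h4.2]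
  have h6 := hj.trans h5
  exact_mod_cast h6

theorem touches_vol (c : V 2) (R : ℕ) (θ ℓ : ℝ) :
    (volume : Measure (E 2)) {x | touches (cl x, F x θ ℓ) c R} ≤
      (((⌊ℓ⌋₊ / (R + 1) + 1) * (4 * R + 5) ^ 2 : ℕ) : ℝ≥0∞) := by
  set S : Set (E 2) := {y : E 2 | cell 1 y ∈ Bx c (2 * R + 2)} with hS
  have hvS : (volume : Measure (E 2)) S = (((4 * R + 5) ^ 2 : ℕ) : ℝ≥0∞) := by
    rw [hS, Pool.Agent.Helper56_LP.volume_cells one_pos, card_Bx, one_pow, mul_one,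
      ENNReal.ofReal_natCast]
    congr 2
    ring
  have hsub : {x | touches (cl x, F x θ ℓ) c R} ⊆ ⋃ q ∈ Finset.range (⌊ℓ⌋₊ / (R + 1) + 1),
      (fun x : E 2 => x + (((R + 1) * q : ℕ) : ℝ) • dir θ) ⁻¹' S := by
    rintro x ⟨a, ha, hB⟩
    rw [mem_F] at ha
    obtain ⟨n, hn, hn'⟩ := ha
    simp only [mem_iUnion, mem_preimage, Finset.mem_range]
    refine ⟨n / (R + 1), Nat.lt_succ_iff.mpr (Nat.div_le_div_right hn), ?_⟩
    have h1 := Nat.div_add_mod n (R + 1)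
    have h2 : n % (R + 1) < R + 1 := Nat.mod_lt n (Nat.succ_pos R)
    have h3 : ∀ j, |(x + (((R + 1) * (n / (R + 1)) : ℕ) : ℝ) • dir θ) j -
        (x + (n : ℝ) • dir θ) j| ≤ ((R : ℕ) : ℝ) := by
      intro j
      refine (pt_sub x θ _ _ j).trans ?_
      have h4 : (n : ℝ) = (((R + 1) * (n / (R + 1)) : ℕ) : ℝ) + ((n % (R + 1) : ℕ) : ℝ) := by
        exact_mod_cast h1.symm
      have h5 : ((n % (R + 1) : ℕ) : ℝ) ≤ R := by exact_mod_cast (by omega : n % (R + 1) ≤ R)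
      have h6 : (0 : ℝ) ≤ ((n % (R + 1) : ℕ) : ℝ) := Nat.cast_nonneg _
      rw [abs_le]
      constructor <;> linarith
    show cell 1 _ ∈ Bx c (2 * R + 2)
    rw [mem_Bx]
    intro j
    have h4 := cl_close h3 j
    have h5 := hn' j
    have h6 := mem_Bx.mp hB j
    have h7 : ((cl x, F x θ ℓ).1 + a) j = cl x j + a j := rfl
    rw [h7] at h6
    have h8 : ((2 * R + 2 : ℕ) : ℤ) = 2 * (R : ℤ) + 2 := by push_cast; ring
    rw [h8]
    rw [abs_le] at *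
    constructor <;> linarith [h4.1, h4.2, h5.1, h5.2, h6.1, h6.2]
  refine (measure_mono hsub).trans ((measure_biUnion_finset_le _ _).trans ?_)
  have h1 : ∀ q ∈ Finset.range (⌊ℓ⌋₊ / (R + 1) + 1),
      (volume : Measure (E 2)) ((fun x : E 2 => x + (((R + 1) * q : ℕ) : ℝ) • dir θ) ⁻¹' S)
        = (((4 * R + 5) ^ 2 : ℕ) : ℝ≥0∞) := by
    intro q _
    rw [measure_preimage_add_right, hvS]
  rw [Finset.sum_congr rfl h1, Finset.sum_const, Finset.card_range, nsmul_eq_mul]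
  push_cast
  exact le_rfl

end

end Pool.Agent.U756.CS
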