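import Pool.Agent.U756.CS.Meas
import Pool.Agent.H974R2.Infinite

/-!
# Crossing segments and bond percolation on the square lattice
-/

set_option autoImplicit false

namespace Pool.Agent.U756.CS

open MeasureTheory ProbabilityTheory Set Filter
open scoped ENNReal NNReal
open Pool.Agent.Helper712_LP (E cell HasUnboundedComponent)
open H974 (Edg src tgt sqLattice cluster0 opn Reach Adj)

noncomputable section

/-- Indices of the small sets of segments: type (horizontal or vertical), vertex, class. -/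
abbrev J := Bool × ℤ × ℤ × Fin 3

/-- the cell of the starting point -/
def cn (i : J) : Fin 2 → ℤ :=
  if i.1 = true then ![8 * i.2.1 - 8, 8 * i.2.2.1 + ((i.2.2.2 : ℕ) : ℤ)]
  else ![8 * i.2.1 + ((i.2.2.2 : ℕ) : ℤ), 8 * i.2.2.1 - 8]

/-- the least angle -/
def an (i : J) : ℝ := if i.1 = true then 0 else Real.pi / 2

/-- The set of segments with index `i`. -/
def Bset (i : J) : Set (E 2 × (ℝ × ℝ)) :=
  {y | cell (1 / 8) y = cn i} ×ˢ (Ico (an i) (an i + 1 / 32) ×ˢ Ici 4)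

theorem cell_bounds {y : E 2} {z : Fin 2 → ℤ} (h : cell (1 / 8) y = z) (j : Fin 2) :
    (z j : ℝ) / 8 ≤ y j ∧ y j < ((z j : ℝ) + 1) / 8 := by
  have h1 : ⌊y j / (1 / 8)⌋ = z j := congrFun h j
  rw [Int.floor_eq_iff] at h1
  constructor <;> linarith [h1.1, h1.2]

theorem small_angle {φ : ℝ} (h0 : 0 ≤ φ) (h1 : φ < 1 / 32) :
    (999 / 1000 ≤ Real.cos φ ∧ Real.cos φ ≤ 1) ∧ 0 ≤ Real.sin φ ∧ Real.sin φ ≤ 1 / 32 := by
  refine ⟨⟨?_, Real.cos_le_one φ⟩, ?_, ?_⟩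
  · have := Real.one_sub_sq_div_two_le_cos (x := φ)
    nlinarith
  · exact Real.sin_nonneg_of_nonneg_of_le_pi h0 (by linarith [Real.pi_gt_three])
  · exact (Real.sin_le h0).trans h1.le

theorem cross {a b a' b' : ℤ} {j j' : Fin 3} (h1 : a' = a ∨ a' = a + 1) (h2 : b = b' ∨ b = b' + 1)
    {p p' : E 2} {y y' : ℝ × ℝ} (hp : (p, y) ∈ Bset (true, a, b, j))
    (hp' : (p', y') ∈ Bset (false, a', b', j')) :
    (seg p y.1 y.2 ∩ seg p' y'.1 y'.2).Nonempty := by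
  obtain ⟨hc, ⟨hθ0, hθ1⟩, hℓ⟩ := hp
  obtain ⟨hc', ⟨hθ0', hθ1'⟩, hℓ'⟩ := hp'
  obtain ⟨θ, ℓ⟩ := y
  obtain ⟨θ', ℓ'⟩ := y'
  simp only [an, if_true, Bool.false_eq_true, if_false, mem_Ici, zero_add] at hθ0 hθ1 hℓ hθ0' hθ1' hℓ'
  have hj : ((j : ℕ) : ℝ) ≤ 2 := by exact_mod_cast (by omega : (j : ℕ) ≤ 2)
  have hj' : ((j' : ℕ) : ℝ) ≤ 2 := by exact_mod_cast (by omega : (j' : ℕ) ≤ 2)
  have hj0 : (0 : ℝ) ≤ ((j : ℕ) : ℝ) := Nat.cast_nonneg _
  have hj0' : (0 : ℝ) ≤ ((j' : ℕ) : ℝ) := Nat.cast_nonneg _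
  have c0 := cell_bounds hc 0
  have c1 := cell_bounds hc 1
  have c0' := cell_bounds hc' 0
  have c1' := cell_bounds hc' 1
  simp only [cn, if_true, Bool.false_eq_true, if_false, Matrix.cons_val_zero, Matrix.cons_val_one]
    at c0 c1 c0' c1'
  push_cast at c0 c1 c0' c1'
  obtain ⟨⟨k1, k2⟩, k3, k4⟩ := small_angle hθ0 hθ1
  have hφ : θ' = (θ' - Real.pi / 2) + Real.pi / 2 := by ring
  obtain ⟨⟨m1, m2⟩, m3, m4⟩ := small_angle (φ := θ' - Real.pi / 2) (by linarith) (by linarith)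
  have hcos : Real.cos θ' = -Real.sin (θ' - Real.pi / 2) := by
    conv_lhs => rw [hφ]
    exact Real.cos_add_pi_div_two _
  have hsin : Real.sin θ' = Real.cos (θ' - Real.pi / 2) := by
    conv_lhs => rw [hφ]
    exact Real.sin_add_pi_div_two _
  set c := Real.cos θ with hcdef
  set s := Real.sin θ with hsdef
  set c' := Real.cos (θ' - Real.pi / 2) with hcdef'
  set s' := Real.sin (θ' - Real.pi / 2) with hsdef'
  have hab : (a' : ℝ) - a = 0 ∨ (a' : ℝ) - a = 1 := by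
    rcases h1 with h | h
    · left; rw [h]; ring
    · right; rw [h]; push_cast; ring
  have hbb : (b : ℝ) - b' = 0 ∨ (b : ℝ) - b' = 1 := by
    rcases h2 with h | h
    · left; rw [h]; ring
    · right; rw [h]; push_cast; ring
  obtain ⟨D0, hD0⟩ : ∃ D0, D0 = p' 0 - p 0 := ⟨_, rfl⟩
  obtain ⟨D1, hD1⟩ : ∃ D1, D1 = p 1 - p' 1 := ⟨_, rfl⟩
  have e0 : 7 / 8 ≤ D0 ∧ D0 ≤ 19 / 8 := by
    rw [hD0]
    rcases hab with h | h <;> constructor <;> linarith [c0.1, c0.2, c0'.1, c0'.2]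
  have e1 : 7 / 8 ≤ D1 ∧ D1 ≤ 19 / 8 := by
    rw [hD1]
    rcases hbb with h | h <;> constructor <;> linarith [c1.1, c1.2, c1'.1, c1'.2]
  obtain ⟨dt, hdt⟩ : ∃ dt, dt = c * c' + s * s' := ⟨_, rfl⟩
  have b0 : 999 / 1000 * (999 / 1000) ≤ c * c' :=
    mul_le_mul k1 m1 (by norm_num) (by linarith)
  have b1 : 0 ≤ s * s' := mul_nonneg k3 m3
  have hdt1 : 99 / 100 ≤ dt := by
    rw [hdt]
    linarith
  have hdt0 : 0 < dt := by linarith
  have b2 : 7 / 8 * (999 / 1000) ≤ D0 * c' := mul_le_mul e0.1 m1 (by norm_num) (by linarith [e0.1])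
  have b3 : D0 * c' ≤ 19 / 8 * 1 := mul_le_mul e0.2 m2 (by linarith) (by norm_num)
  have b4 : s' * D1 ≤ 1 / 32 * (19 / 8) := mul_le_mul m4 e1.2 (by linarith [e1.1]) (by norm_num)
  have b5 : 0 ≤ s' * D1 := mul_nonneg m3 (by linarith [e1.1])
  have b6 : c * D1 ≤ 1 * (19 / 8) := mul_le_mul k2 e1.2 (by linarith [e1.1]) (by norm_num)
  have b7 : 0 ≤ c * D1 := mul_nonneg (by linarith) (by linarith [e1.1])
  have b8 : s * D0 ≤ 1 / 32 * (19 / 8) := mul_le_mul k4 e0.2 (by linarith [e0.1]) (by norm_num)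
  have b9 : 0 ≤ s * D0 := mul_nonneg k3 (by linarith [e0.1])
  have hu0 : 0 ≤ D0 * c' - s' * D1 := by linarith
  have hu1 : D0 * c' - s' * D1 ≤ 4 * dt := by linarith
  have hw0 : 0 ≤ c * D1 + s * D0 := by linarith
  have hw1 : c * D1 + s * D0 ≤ 4 * dt := by linarith
  obtain ⟨u, hu⟩ : ∃ u, u = (D0 * c' - s' * D1) / dt := ⟨_, rfl⟩
  obtain ⟨w, hw⟩ : ∃ w, w = (c * D1 + s * D0) / dt := ⟨_, rfl⟩
  have hudt : u * dt = D0 * c' - s' * D1 := by rw [hu]; field_simp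
  have hwdt : w * dt = c * D1 + s * D0 := by rw [hw]; field_simp
  have hu0' : 0 ≤ u := by rw [hu]; positivity
  have hw0' : 0 ≤ w := by rw [hw]; positivity
  have hu4 : u ≤ 4 := by rw [hu, div_le_iff₀ hdt0]; exact hu1
  have hw4 : w ≤ 4 := by rw [hw, div_le_iff₀ hdt0]; exact hw1
  have heq0 : u * c + w * s' = D0 := by
    have : (u * c + w * s') * dt = D0 * dt := by
      calc (u * c + w * s') * dt = (u * dt) * c + (w * dt) * s' := by ring
        _ = D0 * dt := by rw [hudt, hwdt, hdt]; ring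
    exact mul_right_cancel₀ hdt0.ne' this
  have heq1 : w * c' - u * s = D1 := by
    have : (w * c' - u * s) * dt = D1 * dt := by
      calc (w * c' - u * s) * dt = (w * dt) * c' - (u * dt) * s := by ring
        _ = D1 * dt := by rw [hudt, hwdt, hdt]; ring
    exact mul_right_cancel₀ hdt0.ne' this
  refine ⟨p + u • dir θ, (mem_seg (by linarith)).mpr ⟨u, hu0', by linarith, rfl⟩,
    (mem_seg (by linarith)).mpr ⟨w, hw0', by linarith, ?_⟩⟩
  ext k
  fin_cases k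
  · simp only [Fin.zero_eta, PiLp.add_apply, PiLp.smul_apply, smul_eq_mul, dir,
      PiLp.toLp_apply, Matrix.cons_val_zero]
    rw [hcos]
    linarith
  · simp only [Fin.mk_one, PiLp.add_apply, PiLp.smul_apply, smul_eq_mul, dir,
      PiLp.toLp_apply, Matrix.cons_val_one, Matrix.cons_val_fin_one]
    rw [hsin]
    linarith

/-- the indices which make the bond `e` open -/
def i0 (e : Edg) : J := (e.2.2, e.1, e.2.1, 0)
def i1 (e : Edg) : J := (!e.2.2, e.1, e.2.1, 1)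
def i2 (e : Edg) : J := (!e.2.2, (tgt e).1, (tgt e).2, 2)

/-- horizontal and vertical pieces at the end points of a bond -/
theorem pieces (e : Edg) (v : ℤ × ℤ) (hv : src e = v ∨ tgt e = v) :
    (∃ h1 j, ((true, h1, v.2, j) = i0 e ∨ (true, h1, v.2, j) = i1 e ∨ (true, h1, v.2, j) = i2 e) ∧
      (v.1 = h1 ∨ v.1 = h1 + 1)) ∧
    (∃ v2 j, ((false, v.1, v2, j) = i0 e ∨ (false, v.1, v2, j) = i1 e ∨
      (false, v.1, v2, j) = i2 e) ∧ (v.2 = v2 ∨ v.2 = v2 + 1)) := by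
  obtain ⟨a, b, s⟩ := e
  cases s
  · rcases hv with h | h
    · rw [← h]
      exact ⟨⟨a, 1, Or.inr (Or.inl rfl), Or.inl rfl⟩, ⟨b, 0, Or.inl rfl, Or.inl rfl⟩⟩
    · rw [← h]
      exact ⟨⟨a, 2, Or.inr (Or.inr rfl), Or.inl rfl⟩, ⟨b, 0, Or.inl rfl, Or.inr rfl⟩⟩
  · rcases hv with h | h
    · rw [← h]
      exact ⟨⟨a, 0, Or.inl rfl, Or.inl rfl⟩, ⟨b, 1, Or.inr (Or.inl rfl), Or.inl rfl⟩⟩
    · rw [← h]
      exact ⟨⟨a, 0, Or.inl rfl, Or.inr rfl⟩, ⟨b, 2, Or.inr (Or.inr rfl), Or.inl rfl⟩⟩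

section Det

variable (x : ℕ → E 2) (Y : ℕ → ℝ × ℝ)

/-- present -/
def Pr (i : J) : Prop := ∃ n, (x n, Y n) ∈ Bset i

open Classical in
/-- the number of a chosen segment with index `i` -/
def N (i : J) : ℕ := if h : ∃ n, (x n, Y n) ∈ Bset i then h.choose else 0

variable {x Y}

theorem N_spec {i : J} (h : Pr x Y i) : (x (N x Y i), Y (N x Y i)) ∈ Bset i := by
  have h' : ∃ n, (x n, Y n) ∈ Bset i := h
  unfold N
  rw [dif_pos h']
  exact h'.choose_spec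

variable (x Y)

/-- the chosen segment -/
def SG (i : J) : Set (E 2) := seg (x (N x Y i)) (Y (N x Y i)).1 (Y (N x Y i)).2

/-- the pieces of a bond -/
def CC (e : Edg) : Set (E 2) := (SG x Y (i0 e) ∪ SG x Y (i1 e)) ∪ SG x Y (i2 e)

variable {x Y}

theorem SG_sub (i : J) : SG x Y i ⊆ ⋃ n, seg (x n) (Y n).1 (Y n).2 :=
  subset_iUnion (fun n => seg (x n) (Y n).1 (Y n).2) _

theorem CC_sub (e : Edg) : CC x Y e ⊆ ⋃ n, seg (x n) (Y n).1 (Y n).2 :=
  union_subset (union_subset (SG_sub _) (SG_sub _)) (SG_sub _)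

theorem SG_cross {a b a' b' : ℤ} {j j' : Fin 3} (h1 : a' = a ∨ a' = a + 1)
    (h2 : b = b' ∨ b = b' + 1) (hp : Pr x Y (true, a, b, j)) (hp' : Pr x Y (false, a', b', j')) :
    (SG x Y (true, a, b, j) ∩ SG x Y (false, a', b', j')).Nonempty :=
  cross h1 h2 (N_spec hp) (N_spec hp')

theorem SG_conn (i : J) : IsPreconnected (SG x Y i) := (convex_segment _ _).isPreconnected

/-- all three indices of the bond are present -/
def Op (x : ℕ → E 2) (Y : ℕ → ℝ × ℝ) (e : Edg) : Prop :=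
  Pr x Y (i0 e) ∧ Pr x Y (i1 e) ∧ Pr x Y (i2 e)

theorem CC_conn {e : Edg} (h : Op x Y e) : IsPreconnected (CC x Y e) := by
  obtain ⟨h0, h1, h2⟩ := h
  obtain ⟨a, b, s⟩ := e
  cases s
  · have k1 : (SG x Y (i0 (a, b, false)) ∩ SG x Y (i1 (a, b, false))).Nonempty := by
      rw [inter_comm]
      exact SG_cross (Or.inl rfl) (Or.inl rfl) h1 h0
    have k2 : (SG x Y (i0 (a, b, false)) ∩ SG x Y (i2 (a, b, false))).Nonempty := by
      rw [inter_comm]
      exact SG_cross (Or.inl rfl) (Or.inr rfl) h2 h0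
    refine IsPreconnected.union' ?_ (IsPreconnected.union' k1 (SG_conn _) (SG_conn _)) (SG_conn _)
    exact k2.mono (inter_subset_inter_left _ subset_union_left)
  · have k1 : (SG x Y (i0 (a, b, true)) ∩ SG x Y (i1 (a, b, true))).Nonempty :=
      SG_cross (Or.inl rfl) (Or.inl rfl) h0 h1
    have k2 : (SG x Y (i0 (a, b, true)) ∩ SG x Y (i2 (a, b, true))).Nonempty :=
      SG_cross (Or.inr rfl) (Or.inl rfl) h0 h2
    refine IsPreconnected.union' ?_ (IsPreconnected.union' k1 (SG_conn _) (SG_conn _)) (SG_conn _)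
    exact k2.mono (inter_subset_inter_left _ subset_union_left)

theorem mem_op {e : Edg} (h : Op x Y e) {i : J} (hi : i = i0 e ∨ i = i1 e ∨ i = i2 e) :
    Pr x Y i ∧ SG x Y i ⊆ CC x Y e := by
  rcases hi with rfl | rfl | rfl
  · exact ⟨h.1, fun y hy => Or.inl (Or.inl hy)⟩
  · exact ⟨h.2.1, fun y hy => Or.inl (Or.inr hy)⟩
  · exact ⟨h.2.2, fun y hy => Or.inr hy⟩

theorem CC_meet {e e' : Edg} {v : ℤ × ℤ} (h : Op x Y e) (h' : Op x Y e')
    (hv : src e = v ∨ tgt e = v) (hv' : src e' = v ∨ tgt e' = v) :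
    (CC x Y e ∩ CC x Y e').Nonempty := by
  obtain ⟨⟨h1, j, hi, hh⟩, -⟩ := pieces e v hv
  obtain ⟨-, ⟨v2, j', hi', hh'⟩⟩ := pieces e' v hv'
  obtain ⟨k1, k2⟩ := mem_op h hi
  obtain ⟨k1', k2'⟩ := mem_op h' hi'
  exact (SG_cross hh hh' k1 k1').mono (inter_subset_inter k2 k2')

/-- a point near the end points of the bond -/
theorem CC_near {e : Edg} {v : ℤ × ℤ} (h : Op x Y e) (hv : src e = v ∨ tgt e = v) :
    ∃ p ∈ CC x Y e, |p 0 - v.1| ≤ 2 ∧ |p 1 - v.2| ≤ 1 := by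
  obtain ⟨⟨h1, j, hi, hh⟩, -⟩ := pieces e v hv
  obtain ⟨k1, k2⟩ := mem_op h hi
  have k3 := N_spec k1
  refine ⟨x (N x Y (true, h1, v.2, j)), k2 (left_mem_segment ℝ _ _), ?_⟩
  have hj : ((j : ℕ) : ℝ) ≤ 2 := by exact_mod_cast (by omega : (j : ℕ) ≤ 2)
  have hj0 : (0 : ℝ) ≤ ((j : ℕ) : ℝ) := Nat.cast_nonneg _
  have c0 := cell_bounds k3.1 0
  have c1 := cell_bounds k3.1 1
  simp only [cn, if_true, Matrix.cons_val_zero, Matrix.cons_val_one] at c0 c1
  push_cast at c0 c1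
  have hh' : (v.1 : ℝ) = h1 ∨ (v.1 : ℝ) = h1 + 1 := by
    rcases hh with h | h
    · left; rw [h]
    · right; rw [h]; push_cast; ring
  rw [abs_le, abs_le]
  refine ⟨?_, ?_, ?_⟩
  · rcases hh' with h | h <;> constructor <;> linarith [c0.1, c0.2]
  · linarith [c1.1, c1.2]
  · linarith [c1.1, c1.2]

/-- an infinite cluster of bonds gives an unbounded component of segments -/
theorem unbounded {ω : sqLattice.edgeSet → Bool} (hop : ∀ e ∈ opn ω, Op x Y e)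
    (hinf : (cluster0 ω).Infinite) :
    HasUnboundedComponent (⋃ n, seg (x n) (Y n).1 (Y n).2) := by
  obtain ⟨v0, hv0, hv0'⟩ := hinf.exists_notMem_finite (Set.finite_singleton ((0, 0) : ℤ × ℤ))
  have hr0 : Reach (opn ω) (0, 0) v0 := (H974.open_reach ω _ _).mp hv0
  obtain ⟨w0, hw0, -⟩ : ∃ w0, Adj (opn ω) (0, 0) w0 ∧ Reach (opn ω) w0 v0 := by
    rcases Relation.ReflTransGen.cases_head hr0 with h | ⟨w, h1, h2⟩
    · exact absurd h.symm hv0'
    · exact ⟨w, h1, h2⟩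
  obtain ⟨e0, he0, hcase0⟩ := hw0
  have hinc0 : src e0 = (0, 0) ∨ tgt e0 = (0, 0) := by
    rcases hcase0 with h | h
    · exact Or.inl h.1
    · exact Or.inr h.2
  obtain ⟨z0, hz0, -⟩ := CC_near (hop e0 he0) hinc0
  set O := ⋃ n, seg (x n) (Y n).1 (Y n).2 with hO
  refine ⟨z0, CC_sub e0 hz0, fun hbd => ?_⟩
  have hclaim : ∀ v, Reach (opn ω) (0, 0) v → ∃ e ∈ opn ω, (src e = v ∨ tgt e = v) ∧
      CC x Y e ⊆ connectedComponentIn O z0 := by
    intro v hv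
    induction hv with
    | refl => exact ⟨e0, he0, hinc0, (CC_conn (hop e0 he0)).subset_connectedComponentIn hz0
        (CC_sub e0)⟩
    | tail _ hstep ih =>
      rename_i b c _
      obtain ⟨e, he, hinc, hsub⟩ := ih
      obtain ⟨e', he', hcase⟩ := hstep
      have hinc' : src e' = b ∨ tgt e' = b := by
        rcases hcase with h | h
        · exact Or.inl h.1
        · exact Or.inr h.2
      have hinc'' : src e' = c ∨ tgt e' = c := by
        rcases hcase with h | h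
        · exact Or.inr h.2
        · exact Or.inl h.1
      refine ⟨e', he', hinc'', ?_⟩
      obtain ⟨y, hy, hy'⟩ := CC_meet (hop e he) (hop e' he') hinc hinc'
      rw [connectedComponentIn_eq (hsub hy)]
      exact (CC_conn (hop e' he')).subset_connectedComponentIn hy' (CC_sub e')
  rw [isBounded_iff_forall_norm_le] at hbd
  obtain ⟨M, hM⟩ := hbd
  refine hinf (((Set.finite_Icc (-⌈M + 2⌉) ⌈M + 2⌉).prod
    (Set.finite_Icc (-⌈M + 2⌉) ⌈M + 2⌉)).subset ?_)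
  intro v hv
  obtain ⟨e, he, hinc, hsub⟩ := hclaim v ((H974.open_reach ω _ _).mp hv)
  obtain ⟨p, hp, hp0, hp1⟩ := CC_near (hop e he) hinc
  have h1 := hM p (hsub hp)
  have h2 : |p 0| ≤ ‖p‖ := by simpa using PiLp.norm_apply_le p 0
  have h3 : |p 1| ≤ ‖p‖ := by simpa using PiLp.norm_apply_le p 1
  rw [abs_le] at hp0 hp1 h2 h3
  have h4 := Int.le_ceil (M + 2)
  simp only [mem_prod, mem_Icc]
  refine ⟨⟨?_, ?_⟩, ?_, ?_⟩
  · have : ((-⌈M + 2⌉ : ℤ) : ℝ) ≤ v.1 := by push_cast; linarith [hp0.2, h2.1]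
    exact_mod_cast this
  · have : (v.1 : ℝ) ≤ ((⌈M + 2⌉ : ℤ) : ℝ) := by linarith [hp0.1, h2.2]
    exact_mod_cast this
  · have : ((-⌈M + 2⌉ : ℤ) : ℝ) ≤ v.2 := by push_cast; linarith [hp1.2, h3.1]
    exact_mod_cast this
  · have : (v.2 : ℝ) ≤ ((⌈M + 2⌉ : ℤ) : ℝ) := by linarith [hp1.1, h3.2]
    exact_mod_cast this

end Det

end

end Pool.Agent.U756.CS
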