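import Pool.Agent.U756.CS.LowGeo

/-!
# Percolation at large intensity
-/

set_option autoImplicit false

namespace Pool.Agent.U756.CS

open MeasureTheory ProbabilityTheory Set Filter
open scoped ENNReal NNReal
open Pool.Agent.Helper712_LP (E cell HasUnboundedComponent)
open H974 (Edg src tgt sqLattice cluster0 opn Reach Adj toE toE_inj bondLaw theta)

noncomputable section

/-! ### The sets of segments -/

theorem meas_Bset (i : J) : MeasurableSet (Bset i) :=
  (Pool.Agent.Helper56_LP.measurableSet_cell (1 / 8) (cn i)).prod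
    (measurableSet_Ico.prod measurableSet_Ici)

theorem disj_Bset : Pairwise (Function.onFun Disjoint Bset) := by
  intro i i' hne
  rw [Function.onFun, Set.disjoint_left]
  rintro q ⟨h1, ⟨h2, h3⟩, -⟩ ⟨h1', ⟨h2', h3'⟩, -⟩
  apply hne
  obtain ⟨s, a, b, j⟩ := i
  obtain ⟨s', a', b', j'⟩ := i'
  have hc : cn (s, a, b, j) = cn (s', a', b', j') :=
    (show cell (1 / 8) q.1 = _ from h1).symm.trans h1'
  have hpi := Real.pi_gt_three
  have e0 := congrFun hc 0
  have e1 := congrFun hc 1
  have hj := j.2
  have hj' := j'.2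
  cases s <;> cases s'
  · simp only [cn, Bool.false_eq_true, if_false, Matrix.cons_val_zero, Matrix.cons_val_one,
      Matrix.cons_val_fin_one] at e0 e1
    have k1 : a = a' := by omega
    have k2 : b = b' := by omega
    have k3 : j = j' := Fin.ext (by omega)
    rw [k1, k2, k3]
  · exfalso
    simp only [an, Bool.false_eq_true, if_false, if_true] at h2 h3 h2' h3'
    linarith
  · exfalso
    simp only [an, Bool.false_eq_true, if_false, if_true] at h2 h3 h2' h3'
    linarith
  · simp only [cn, if_true, Matrix.cons_val_zero, Matrix.cons_val_one,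
      Matrix.cons_val_fin_one] at e0 e1
    have k1 : a = a' := by omega
    have k2 : b = b' := by omega
    have k3 : j = j' := Fin.ext (by omega)
    rw [k1, k2, k3]

theorem angle_window {c : ℝ} (h0 : 0 ≤ c) (h1 : c + 1 / 32 ≤ 2 * Real.pi) :
    angleLaw (Ico c (c + 1 / 32)) = ENNReal.ofReal (1 / (64 * Real.pi)) := by
  unfold angleLaw
  have hpi := Real.pi_pos
  rw [cond_apply measurableSet_Ico, inter_eq_self_of_subset_right
    (Ico_subset_Ico h0 h1), Real.volume_Ico, Real.volume_Ico, ← ENNReal.ofReal_inv_of_pos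
    (by linarith), ← ENNReal.ofReal_mul (inv_nonneg.mpr (by linarith))]
  congr 1
  field_simp
  ring

variable (m : Measure ℝ) [IsProbabilityMeasure m]

/-- the common measure of the sets `Bset i` -/
def mu0 : ℝ := 1 / 64 * (1 / (64 * Real.pi)) * (m (Ici 4)).toReal

theorem vol_Bset (i : J) : ((volume : Measure (E 2)).prod (angleLaw.prod m)) (Bset i) =
    ENNReal.ofReal (mu0 m) := by
  have hpi := Real.pi_gt_three
  unfold Bset mu0
  rw [Measure.prod_prod, Measure.prod_prod, Pool.Agent.Helper56_LP.volume_cell (by norm_num),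
    angle_window, ENNReal.ofReal_mul (by positivity), ENNReal.ofReal_mul (by norm_num),
    ENNReal.ofReal_toReal (measure_ne_top _ _), mul_assoc]
  · norm_num
  · unfold an
    split_ifs <;> positivity
  · unfold an
    split_ifs
    · linarith
    · linarith

theorem Bset_finite (i : J) :
    ((volume : Measure (E 2)).prod (angleLaw.prod m)) (Bset i) ≠ ∞ := by
  rw [vol_Bset]
  exact ENNReal.ofReal_ne_top

/-! ### Open bonds -/

/-- the indices of a bond -/
def idx (e : Edg) : Finset J := {i0 e, i1 e, i2 e}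

theorem mem_idx {e : Edg} {i : J} : i ∈ idx e ↔ i = i0 e ∨ i = i1 e ∨ i = i2 e := by
  unfold idx
  simp

theorem idx_card (e : Edg) : (idx e).card = 3 := by
  unfold idx
  rw [Finset.card_eq_three]
  refine ⟨_, _, _, ?_, ?_, ?_, rfl⟩
  · intro h
    have := congrArg (fun i : J => i.2.2.2) h
    simp [i0, i1] at this
  · intro h
    have := congrArg (fun i : J => i.2.2.2) h
    simp [i0, i2] at this
  · intro h
    have := congrArg (fun i : J => i.2.2.2) h
    simp [i1, i2] at this

theorem idx_disj {e e' : Edg} (h : e ≠ e') : Disjoint (idx e) (idx e') := by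
  rw [Finset.disjoint_left]
  intro i hi hi'
  apply h
  rw [mem_idx] at hi hi'
  obtain ⟨a, b, s⟩ := e
  obtain ⟨a', b', s'⟩ := e'
  have key : ∀ k : Fin 3, i.2.2.2 = k → k = 0 ∨ k = 1 ∨ k = 2 := by
    intro k _
    fin_cases k <;> simp
  cases s <;> cases s' <;>
    rcases hi with rfl | rfl | rfl <;> rcases hi' with h1 | h1 | h1 <;>
    simp [i0, i1, i2, tgt] at h1 ⊢ <;> omega

variable {Ω : Type} [MeasurableSpace Ω] {P : Measure Ω} [IsProbabilityMeasure P] {t : ℝ≥0}
  {x : ℕ → Ω → E 2} {Y : ℕ → Ω → ℝ × ℝ}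

/-- is the bond open? -/
def op (x : ℕ → Ω → E 2) (Y : ℕ → Ω → ℝ × ℝ) (e : Edg) (ω : Ω) : Bool :=
  (pres x Y Bset (i0 e) ω && pres x Y Bset (i1 e) ω) && pres x Y Bset (i2 e) ω

omit [MeasurableSpace Ω] in
theorem op_true {e : Edg} {ω : Ω} :
    op x Y e ω = true ↔ ∀ i ∈ idx e, pres x Y Bset i ω = true := by
  unfold op
  rw [Bool.and_eq_true, Bool.and_eq_true]
  constructor
  · rintro ⟨⟨h0, h1⟩, h2⟩ i hi
    rcases mem_idx.mp hi with rfl | rfl | rfl
    · exact h0
    · exact h1
    · exact h2
  · intro h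
    exact ⟨⟨h _ (mem_idx.mpr (Or.inl rfl)), h _ (mem_idx.mpr (Or.inr (Or.inl rfl)))⟩,
      h _ (mem_idx.mpr (Or.inr (Or.inr rfl)))⟩

omit [MeasurableSpace Ω] in
theorem Op_of {e : Edg} {ω : Ω} (h : op x Y e ω = true) :
    Op (fun n => x n ω) (fun n => Y n ω) e := by
  rw [op_true] at h
  refine ⟨?_, ?_, ?_⟩
  · exact pres_true.mp (h _ (mem_idx.mpr (Or.inl rfl)))
  · exact pres_true.mp (h _ (mem_idx.mpr (Or.inr (Or.inl rfl))))
  · exact pres_true.mp (h _ (mem_idx.mpr (Or.inr (Or.inr rfl))))

variable {m}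

omit [IsProbabilityMeasure m] in
theorem op_set (x : ℕ → Ω → E 2) (Y : ℕ → Ω → ℝ × ℝ) (S : Finset Edg) :
    (⋂ e ∈ S, {ω | op x Y e ω = true}) = ⋂ i ∈ S.biUnion idx, pres x Y Bset i ⁻¹' {true} := by
  ext ω
  simp only [mem_iInter, mem_ofPred_eq, Finset.mem_biUnion, mem_preimage, mem_singleton_iff]
  constructor
  · rintro h i ⟨e, he, hi⟩
    exact op_true.mp (h e he) i hi
  · intro h e he
    exact op_true.mpr fun i hi => h i ⟨e, he, hi⟩

theorem pres_Q (h : Mk P t x Y (angleLaw.prod m)) (i : J) :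
    P (pres x Y Bset i ⁻¹' {true}) = ENNReal.ofReal (1 - Real.exp (-(t * mu0 m))) := by
  have h1 := h.pres_prob meas_Bset (Bset_finite m) i
  rw [vol_Bset, ENNReal.toReal_ofReal] at h1
  · exact h1
  · unfold mu0
    have := Real.pi_pos
    positivity

theorem op_prob_all (h : Mk P t x Y (angleLaw.prod m)) (S : Finset Edg) :
    P (⋂ e ∈ S, {ω | op x Y e ω = true}) =
      ∏ _e ∈ S, ENNReal.ofReal ((1 - Real.exp (-(t * mu0 m))) ^ 3) := by
  have hq : 0 ≤ 1 - Real.exp (-(t * mu0 m)) := by
    have : 0 ≤ t * mu0 m := by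
      unfold mu0
      have := Real.pi_pos
      positivity
    have := Real.exp_le_one_iff.mpr (neg_nonpos.mpr this)
    linarith
  rw [op_set x Y S, (h.pres_indep meas_Bset (Bset_finite m) disj_Bset).measure_inter_preimage_eq_mul
    (S.biUnion idx) (fun _ _ => MeasurableSet.of_discrete),
    Finset.prod_biUnion (fun e _ e' _ hne => idx_disj hne)]
  refine Finset.prod_congr rfl fun e _ => ?_
  rw [Finset.prod_congr rfl (fun i _ => pres_Q h i), Finset.prod_const, idx_card,
    ENNReal.ofReal_pow hq]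

theorem op_meas (h : Mk P t x Y (angleLaw.prod m)) (e : Edg) :
    MeasurableSet {ω | op x Y e ω = true} := by
  have h1 := op_set x Y {e}
  simp only [Finset.mem_singleton, iInter_iInter_eq_left, Finset.singleton_biUnion] at h1
  rw [h1]
  exact Finset.measurableSet_biInter _ fun i _ => h.pres_meas meas_Bset i MeasurableSet.of_discrete

theorem op_prob (h : Mk P t x Y (angleLaw.prod m)) (e : Edg) :
    P {ω | op x Y e ω = true} = ENNReal.ofReal ((1 - Real.exp (-(t * mu0 m))) ^ 3) := by
  have h1 := op_prob_all h {e}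
  simpa only [Finset.mem_singleton, iInter_iInter_eq_left, Finset.prod_singleton] using h1

theorem op_measurable (h : Mk P t x Y (angleLaw.prod m)) (e : Edg) : Measurable (op x Y e) :=
  measurable_to_bool (op_meas h e)

theorem op_indep (h : Mk P t x Y (angleLaw.prod m)) : iIndepFun (op x Y) P := by
  have h1 : iIndepSet (fun e => {ω | op x Y e ω = true}) P := by
    rw [iIndepSet_iff_meas_biInter (op_meas h)]
    intro S
    rw [op_prob_all h S]
    exact Finset.prod_congr rfl fun e _ => (op_prob h e).symm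
  have h3 := iIndepSet.iIndepFun_indicator (β := ℕ) (m := Nat.instMeasurableSpace) h1
  have h4 := h3.comp (fun _ n => decide (n = 1)) (fun _ => measurable_from_nat)
  convert h4 using 1
  funext e ω
  simp only [Function.comp_apply, Set.indicator_apply, Set.mem_ofPred_eq]
  by_cases h : op x Y e ω = true
  · rw [if_pos h, h]; simp
  · rw [if_neg h]
    simpa using h

/-! ### Transfer to the square lattice -/

theorem toE_surj : Function.Surjective toE := by
  rintro ⟨f, hf⟩
  induction f using Sym2.ind with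
  | _ u v =>
    obtain ⟨e, he⟩ := H974.adj_edge ((SimpleGraph.mem_edgeSet _).mp hf)
    refine ⟨e, Subtype.ext ?_⟩
    rcases he with ⟨h1, h2⟩ | ⟨h1, h2⟩
    · simp only [toE, h1, h2]
    · simp only [toE, h1, h2]
      exact Sym2.eq_swap

/-- the bond of an edge of the lattice -/
def bd : sqLattice.edgeSet ≃ Edg := (Equiv.ofBijective toE ⟨toE_inj, toE_surj⟩).symm

theorem bd_toE (e : Edg) : bd (toE e) = e :=
  (Equiv.ofBijective toE ⟨toE_inj, toE_surj⟩).symm_apply_apply e

/-- **Percolation at large intensity**, unit scale. -/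
theorem unit_lower (m : Measure ℝ) [IsProbabilityMeasure m] (t : ℝ≥0)
    (ht : 40000 ≤ (t : ℝ) * (m (Ici 4)).toReal) (Ω : Type) [MeasurableSpace Ω] (P : Measure Ω)
    [IsProbabilityMeasure P] (x : ℕ → Ω → E 2) (Y : ℕ → Ω → ℝ × ℝ)
    (h : Mk P t x Y (angleLaw.prod m)) :
    0 < P {ω | HasUnboundedComponent (⋃ i, seg (x i ω) (Y i ω).1 (Y i ω).2)} := by
  obtain ⟨q, hq⟩ : ∃ q, q = 1 - Real.exp (-(t * mu0 m)) := ⟨_, rfl⟩
  have hmu : 3 ≤ t * mu0 m := by
    have hpi : Real.pi < 3.15 := Real.pi_lt_d2
    have hpi0 := Real.pi_pos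
    have h1 : t * mu0 m = (t * (m (Ici 4)).toReal) / (4096 * Real.pi) := by
      unfold mu0
      field_simp
      ring
    rw [h1, le_div_iff₀ (by positivity)]
    nlinarith
  have hexp : Real.exp (-(t * mu0 m)) ≤ 1 / 20 := by
    have h1 : Real.exp (-(t * mu0 m)) ≤ Real.exp (-3) := Real.exp_le_exp.mpr (by linarith)
    have h2 : (20 : ℝ) ≤ Real.exp 3 := by
      have h3 : Real.exp 3 = Real.exp 1 ^ 3 := by
        rw [← Real.exp_nat_mul]; norm_num
      have h4 := Real.exp_one_gt_d9
      rw [h3]
      nlinarith [sq_nonneg (Real.exp 1)]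
    refine h1.trans ?_
    rw [Real.exp_neg, one_div]
    exact inv_anti₀ (by norm_num) h2
  have hq0 : 19 / 20 ≤ q := by rw [hq]; linarith
  have hq1 : q ≤ 1 := by rw [hq]; linarith [Real.exp_pos (-(t * mu0 m))]
  have hq3 : 4 / 5 ≤ q ^ 3 := by nlinarith [sq_nonneg q]
  have hq3' : q ^ 3 ≤ 1 := pow_le_one₀ (by linarith) hq1
  set p : unitInterval := ⟨q ^ 3, by positivity, hq3'⟩ with hp
  -- the law of the open bonds
  set G : Ω → sqLattice.edgeSet → Bool := fun ω f => op x Y (bd f) ω with hG
  have hGm : Measurable G := measurable_pi_iff.mpr fun f => op_measurable h (bd f)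
  have hlaw : P.map G = bondLaw p := by
    have h1 : iIndepFun (fun f : sqLattice.edgeSet => op x Y (bd f)) P :=
      (op_indep h).precomp bd.injective
    have h2 := h1.map_fun_eq_infinitePi_map (fun f => op_measurable h (bd f))
    rw [hG, h2]
    unfold bondLaw
    congr 1
    funext f
    have hprob : IsProbabilityMeasure (P.map (op x Y (bd f))) :=
      Measure.isProbabilityMeasure_map (op_measurable h (bd f)).aemeasurable
    have h3 : (P.map (op x Y (bd f))) {true} = ENNReal.ofReal (q ^ 3) := by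
      rw [Measure.map_apply (op_measurable h (bd f)) (MeasurableSet.singleton true), hq]
      exact op_prob h (bd f)
    have h4 : (bernoulliMeasure true false p) {true} = ENNReal.ofReal (q ^ 3) := by
      rw [← ofReal_measureReal, bernoulliMeasure_real_apply_of_mem_of_notMem p
        MeasurableSet.of_discrete (by simp) (by simp)]
    have h5 : ({false} : Set Bool) = {true}ᶜ := by
      ext b
      cases b <;> simp
    refine Measure.ext_of_singleton fun b => ?_
    cases b
    · rw [h5, prob_compl_eq_one_sub MeasurableSet.of_discrete,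
        prob_compl_eq_one_sub MeasurableSet.of_discrete, h3, h4]
    · rw [h3, h4]
  have hmeas : MeasurableSet {ω : sqLattice.edgeSet → Bool | (cluster0 ω).Infinite} := by
    rw [H974.infinite_eq]
    exact MeasurableSet.iInter fun n => H974.meas_event _ _
  have hpos : 0 < P (G ⁻¹' {ω | (cluster0 ω).Infinite}) := by
    rw [← Measure.map_apply hGm hmeas, hlaw]
    obtain ⟨c, hc, hth⟩ := H974.theta_lower
    have h1 := hth p (by
      show (1 / 2 : ℝ) ≤ q ^ 3
      linarith)
    have h2 : 0 < theta p := by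
      refine lt_of_lt_of_le ?_ h1
      refine mul_pos hc (Real.sqrt_pos.mpr ?_)
      show (0 : ℝ) < q ^ 3 - 1 / 2
      linarith
    unfold theta at h2
    rw [measureReal_def] at h2
    exact ENNReal.toReal_pos_iff.mp h2 |>.1
  refine lt_of_lt_of_le hpos (measure_mono ?_)
  intro ω hω
  refine unbounded (ω := G ω) ?_ hω
  intro e he
  have h1 : op x Y (bd (toE e)) ω = true := he
  rw [bd_toE] at h1
  exact Op_of h1

end

end Pool.Agent.U756.CS
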