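import Pool.Agent.U756.CS.Scale
import Mathlib.Probability.Distributions.Pareto

/-!
# Bounds for the segment model at all scales
-/

set_option autoImplicit false

namespace Pool.Agent.U756.CS

open MeasureTheory ProbabilityTheory Set Filter
open scoped ENNReal NNReal
open Pool.Agent.Helper712_LP (E cell HasUnboundedComponent)

noncomputable section

theorem map_Ici (m : Measure ℝ) {a : ℝ} (ha : 0 < a) (u : ℝ) :
    (m.map (fun ℓ => a * ℓ)) (Ici u) = m (Ici (u / a)) := by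
  rw [Measure.map_apply (measurable_const_mul a) measurableSet_Ici]
  congr 1
  ext ℓ
  simp only [mem_preimage, mem_Ici]
  rw [div_le_iff₀ ha, mul_comm]

/-- no percolation at small intensity -/
theorem lower_bound : ∃ v : ℝ, 0 < v ∧ ∀ (m : Measure ℝ) [IsProbabilityMeasure m],
    m (Iio 0) = 0 → ∀ K : ℝ, 0 < K →
    (∀ r : ℝ, 0 < r → ENNReal.ofReal (r ^ 2) * m (Ici r) ≤ ENNReal.ofReal K) →
    ∀ t : ℝ≥0, (t : ℝ) * K ≤ v → ∀ (Ω : Type) [MeasurableSpace Ω] (P : Measure Ω)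
      [IsProbabilityMeasure P] (x : ℕ → Ω → E 2) (Y : ℕ → Ω → ℝ × ℝ),
      Mk P t x Y (angleLaw.prod m) →
      P {ω | HasUnboundedComponent (⋃ i, seg (x i ω) (Y i ω).1 (Y i ω).2)} = 0 := by
  obtain ⟨v, hv, hmain⟩ := unit_upper
  refine ⟨v, hv, ?_⟩
  intro m _ hm0 K hK hmK t ht Ω _ P _ x Y hY
  have hsq : 0 < Real.sqrt K := Real.sqrt_pos.mpr hK
  set a : ℝ≥0 := ⟨1 / Real.sqrt K, by positivity⟩ with ha
  have ha' : (a : ℝ) = 1 / Real.sqrt K := rfl
  have ha0 : (0 : ℝ) < a := by rw [ha']; positivity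
  have hsc := hY.scale (a := a) (by exact_mod_cast ha0)
  rw [← event_scale ha0.ne']
  refine hmain (m.map (fun ℓ => (a : ℝ) * ℓ)) ?_ ?_ (t / a ^ 2) ?_ Ω P _ _ hsc
  · rw [Measure.map_apply (measurable_const_mul (a : ℝ)) measurableSet_Iio]
    have : (fun ℓ => (a : ℝ) * ℓ) ⁻¹' Iio 0 = Iio 0 := by
      ext ℓ
      simp only [mem_preimage, mem_Iio]
      constructor
      · intro h
        by_contra hcon
        push Not at hcon
        have := mul_nonneg ha0.le hcon
        linarith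
      · intro h
        exact mul_neg_of_pos_of_neg ha0 h
    rw [this]
    exact hm0
  · intro n hn
    rw [map_Ici m ha0]
    have hn' : (0 : ℝ) < n := by exact_mod_cast hn
    have h1 := hmK (n / a) (by positivity)
    have h2 : ((n : ℝ) / a) ^ 2 = (n : ℝ) ^ 2 * K := by
      rw [ha', div_div_eq_mul_div, div_one, mul_pow, Real.sq_sqrt hK.le]
    rw [h2, ENNReal.ofReal_mul (by positivity), ENNReal.ofReal_pow (by positivity),
      ENNReal.ofReal_natCast] at h1
    have h3 : ENNReal.ofReal K ≠ 0 := by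
      rw [Ne, ENNReal.ofReal_eq_zero, not_le]
      exact hK
    have h4 : ENNReal.ofReal K * ((n : ℝ≥0∞) ^ 2 * m (Ici ((n : ℝ) / a))) ≤ ENNReal.ofReal K * 1 := by
      rw [mul_one]
      refine le_trans (le_of_eq ?_) h1
      ring
    exact (ENNReal.mul_le_mul_iff_right h3 ENNReal.ofReal_ne_top).mp h4
  · push_cast
    rw [ha', div_pow, one_pow, Real.sq_sqrt hK.le, div_div_eq_mul_div, div_one]
    exact ht

/-- percolation at large intensity -/
theorem upper_bound (m : Measure ℝ) [IsProbabilityMeasure m] (r : ℝ) (hr : 0 < r) (t : ℝ≥0)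
    (ht : 640000 ≤ (t : ℝ) * (r ^ 2 * (m (Ici r)).toReal)) (Ω : Type) [MeasurableSpace Ω]
    (P : Measure Ω) [IsProbabilityMeasure P] (x : ℕ → Ω → E 2) (Y : ℕ → Ω → ℝ × ℝ)
    (hY : Mk P t x Y (angleLaw.prod m)) :
    0 < P {ω | HasUnboundedComponent (⋃ i, seg (x i ω) (Y i ω).1 (Y i ω).2)} := by
  set a : ℝ≥0 := ⟨4 / r, by positivity⟩ with ha
  have ha' : (a : ℝ) = 4 / r := rfl
  have ha0 : (0 : ℝ) < a := by rw [ha']; positivity
  have hsc := hY.scale (a := a) (by exact_mod_cast ha0)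
  rw [← event_scale ha0.ne']
  refine unit_lower (m.map (fun ℓ => (a : ℝ) * ℓ)) (t / a ^ 2) ?_ Ω P _ _ hsc
  rw [map_Ici m ha0]
  have h1 : (4 : ℝ) / a = r := by rw [ha']; field_simp
  rw [h1]
  push_cast
  have h2 : (t : ℝ) / (a : ℝ) ^ 2 = t * r ^ 2 / 16 := by
    rw [ha']
    field_simp
    norm_num
  rw [h2]
  linarith

end

end Pool.Agent.U756.CS
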