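import Pool.Agent.U756.CS.Geo

/-!
# The measure of the bad segments
-/

set_option autoImplicit false

namespace Pool.Agent.U756.CS

open MeasureTheory ProbabilityTheory Set Filter
open scoped ENNReal NNReal
open Pool.Agent.Helper712_LP (E cell)
open Pool.Agent.H592 (V Bx mem_Bx card_Bx touches small bad one? one?_true one?_false)

noncomputable section

/-- The uniform law on `[0, 2π)`. -/
def angleLaw : Measure ℝ := ProbabilityTheory.cond volume (Ico 0 (2 * Real.pi))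

instance : IsProbabilityMeasure angleLaw := by
  unfold angleLaw
  refine cond_isProbabilityMeasure_of_finite ?_ ?_
  · simp [Real.volume_Ico, Real.pi_pos]
  · rw [Real.volume_Ico]
    exact ENNReal.ofReal_ne_top

/-- The points with key `k`. -/
def Kset (k : V 2 × Finset (V 2)) : Set (E 2 × (ℝ × ℝ)) :=
  {p | cl p.1 = k.1 ∧ F p.1 p.2.1 p.2.2 = k.2}

theorem measurable_cl : Measurable cl := Pool.Agent.Helper56_LP.measurable_cell 1

theorem meas_mem_F (z : V 2) : MeasurableSet {p : E 2 × (ℝ × ℝ) | z ∈ F p.1 p.2.1 p.2.2} := by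
  have h1 : {p : E 2 × (ℝ × ℝ) | z ∈ F p.1 p.2.1 p.2.2} = ⋃ n : ℕ,
      ({p | n ≤ ⌊p.2.2⌋₊} ∩ ⋂ j, {p | |z j - (cl (p.1 + (n : ℝ) • dir p.2.1) j - cl p.1 j)| ≤ 2}) := by
    ext p
    simp only [mem_ofPred_eq, mem_iUnion, mem_inter_iff, mem_iInter, mem_F]
  rw [h1]
  refine MeasurableSet.iUnion fun n => MeasurableSet.inter ?_ (MeasurableSet.iInter fun j => ?_)
  · exact measurableSet_le measurable_const
      (Nat.measurable_floor.comp (measurable_snd.comp measurable_snd))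
  · have h2 : Measurable fun p : E 2 × (ℝ × ℝ) => cl (p.1 + (n : ℝ) • dir p.2.1) j :=
      (measurable_pi_apply j).comp (measurable_cl.comp (measurable_fst.add
        ((measurable_dir.comp (measurable_fst.comp measurable_snd)).const_smul (n : ℝ))))
    have h3 : Measurable fun p : E 2 × (ℝ × ℝ) => cl p.1 j :=
      (measurable_pi_apply j).comp (measurable_cl.comp measurable_fst)
    have h4 : Measurable fun p : E 2 × (ℝ × ℝ) =>
        (cl (p.1 + (n : ℝ) • dir p.2.1) j, cl p.1 j) := h2.prodMk h3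
    exact h4 (MeasurableSet.of_discrete (s := {q : ℤ × ℤ | |z j - (q.1 - q.2)| ≤ 2}))

theorem meas_Kset (k : V 2 × Finset (V 2)) : MeasurableSet (Kset k) := by
  have h1 : Kset k = {p : E 2 × (ℝ × ℝ) | cl p.1 = k.1} ∩
      ⋂ z : V 2, {p : E 2 × (ℝ × ℝ) | z ∈ F p.1 p.2.1 p.2.2 ↔ z ∈ k.2} := by
    ext p
    simp only [Kset, mem_ofPred_eq, mem_inter_iff, mem_iInter, Finset.ext_iff]
  rw [h1]
  refine MeasurableSet.inter ?_ (MeasurableSet.iInter fun z => ?_)
  · exact measurable_fst (Pool.Agent.Helper56_LP.measurableSet_cell 1 k.1)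
  · by_cases hz : z ∈ k.2
    · simp only [hz, iff_true]
      exact meas_mem_F z
    · simp only [hz, iff_false]
      exact (meas_mem_F z).compl

theorem disj_Kset : Pairwise (Function.onFun Disjoint Kset) := by
  intro k l hkl
  rw [Function.onFun, Set.disjoint_left]
  rintro p ⟨h1, h2⟩ ⟨h3, h4⟩
  exact hkl (Prod.ext (h1.symm.trans h3) (h2.symm.trans h4))

/-- the key of a marked point -/
def key (q : E 2 × (ℝ × ℝ)) : V 2 × Finset (V 2) := (cl q.1, F q.1 q.2.1 q.2.2)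

theorem mem_Kset {k : V 2 × Finset (V 2)} {q : E 2 × (ℝ × ℝ)} : q ∈ Kset k ↔ key q = k := by
  unfold Kset key
  rw [mem_ofPred_eq, Prod.ext_iff]

theorem preim_key (p : V 2 × Finset (V 2) → Prop) :
    {q | p (key q)} = ⋃ k, {q | q ∈ Kset k ∧ p k} := by
  ext q
  simp only [mem_ofPred_eq, mem_iUnion, mem_Kset]
  constructor
  · intro h
    exact ⟨key q, rfl, h⟩
  · rintro ⟨k, hk, h⟩
    rw [hk]
    exact h

theorem meas_and (k : V 2 × Finset (V 2)) (p : V 2 × Finset (V 2) → Prop) :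
    MeasurableSet {q | q ∈ Kset k ∧ p k} := by
  by_cases h : p k
  · simp only [h, and_true]
    exact meas_Kset k
  · simp only [h, and_false]
    exact MeasurableSet.empty

theorem meas_key (p : V 2 × Finset (V 2) → Prop) : MeasurableSet {q | p (key q)} := by
  rw [preim_key p]
  exact MeasurableSet.iUnion fun k => meas_and k p

theorem sum_keys (μ : Measure (E 2 × (ℝ × ℝ))) (p : V 2 × Finset (V 2) → Prop) :
    ∑' k, μ (Kset k) * one? (p k) = μ {q | p (key q)} := by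
  rw [preim_key p, measure_iUnion ?_ fun k => meas_and k p]
  · refine tsum_congr fun k => ?_
    by_cases h : p k
    · rw [one?_true h, mul_one]
      simp only [h, and_true]
      rfl
    · rw [one?_false h, mul_zero]
      simp only [h, and_false]
      exact measure_empty.symm
  · intro k l hkl
    exact (disj_Kset hkl).mono (fun q hq => hq.1) (fun q hq => hq.1)

theorem snd_lintegral (m : Measure ℝ) [IsProbabilityMeasure m] {g : ℝ → ℝ≥0∞}
    (hg : Measurable g) : ∫⁻ y, g y.2 ∂(angleLaw.prod m) = ∫⁻ ℓ, g ℓ ∂m :=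
  (measurePreserving_snd (μ := angleLaw) (ν := m)).lintegral_comp hg

/-- arithmetic of the bound -/
theorem arith (N r a : ℕ) (hr : 1 ≤ r) (ha : a = max (r - 4) 1) (h : r ≤ N + 4) :
    (N / (24 * r + 1) + 1) * (4 * (24 * r) + 5) ^ 2 ≤
      163216 + if a ≤ N then 255025 * a ^ 2 + 51005 * a * N else 0 := by
  have h1 : (4 * (24 * r) + 5) ^ 2 ≤ 10201 * r ^ 2 := by nlinarith
  have h2 : N / (24 * r + 1) * (24 * r + 1) ≤ N := Nat.div_mul_le_self _ _
  have h3 : N / (24 * r + 1) * r ≤ N :=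
    le_trans (Nat.mul_le_mul_left _ (by omega)) h2
  have h4 : (N / (24 * r + 1) + 1) * (4 * (24 * r) + 5) ^ 2 ≤ 10201 * r * N + 10201 * r ^ 2 := by
    calc (N / (24 * r + 1) + 1) * (4 * (24 * r) + 5) ^ 2
        ≤ (N / (24 * r + 1) + 1) * (10201 * r ^ 2) := Nat.mul_le_mul_left _ h1
      _ = 10201 * r * (N / (24 * r + 1) * r) + 10201 * r ^ 2 := by ring
      _ ≤ _ := by gcongr
  refine h4.trans ?_
  have h5 : r ≤ 5 * a := by omega
  by_cases hN : a ≤ N
  · rw [if_pos hN]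
    nlinarith [Nat.mul_le_mul_right N h5, Nat.mul_le_mul h5 h5]
  · rw [if_neg hN]
    have h6 : N = 0 := by omega
    have h7 : r ≤ 4 := by omega
    subst h6
    nlinarith

/-- the truncated first moment -/
theorem moment (m : Measure ℝ) [IsProbabilityMeasure m]
    (hm : ∀ n : ℕ, 1 ≤ n → (n : ℝ≥0∞) ^ 2 * m (Ici (n : ℝ)) ≤ 1) (a : ℕ) (ha : 1 ≤ a) :
    (a : ℝ≥0∞) * ∫⁻ ℓ, (Ici (a : ℝ)).indicator (fun ℓ => ((⌊ℓ⌋₊ : ℕ) : ℝ≥0∞)) ℓ ∂m ≤ 4 := by
  have hpt : ∀ ℓ : ℝ, (Ici (a : ℝ)).indicator (fun ℓ => ((⌊ℓ⌋₊ : ℕ) : ℝ≥0∞)) ℓ ≤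
      ∑' k : ℕ, (Ici (((2 ^ k * a : ℕ)) : ℝ)).indicator
        (fun _ => ((2 ^ (k + 1) * a : ℕ) : ℝ≥0∞)) ℓ := by
    intro ℓ
    by_cases hℓ : ℓ ∈ Ici (a : ℝ)
    · rw [indicator_of_mem hℓ]
      have hN : a ≤ ⌊ℓ⌋₊ := Nat.le_floor hℓ
      set N := ⌊ℓ⌋₊ with hNdef
      have hpos : N / a ≠ 0 := by
        have := Nat.div_pos hN ha
        omega
      have h1 : 2 ^ Nat.log 2 (N / a) ≤ N / a := Nat.pow_log_le_self 2 hpos
      have h2 : N / a < 2 ^ (Nat.log 2 (N / a) + 1) := Nat.lt_pow_succ_log_self (by norm_num) _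
      have h3 : 2 ^ Nat.log 2 (N / a) * a ≤ N := (Nat.le_div_iff_mul_le (by omega)).mp h1
      have h4 : N < 2 ^ (Nat.log 2 (N / a) + 1) * a := (Nat.div_lt_iff_lt_mul (by omega)).mp h2
      refine le_trans ?_ (ENNReal.le_tsum (Nat.log 2 (N / a)))
      rw [indicator_of_mem]
      · exact_mod_cast h4.le
      · rw [mem_Ici]
        have h5 : (0 : ℝ) ≤ ℓ := le_trans (Nat.cast_nonneg a) hℓ
        exact le_trans (by exact_mod_cast h3) (Nat.floor_le h5)
    · rw [indicator_of_notMem hℓ]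
      exact zero_le
  have h1 : ∫⁻ ℓ, (Ici (a : ℝ)).indicator (fun ℓ => ((⌊ℓ⌋₊ : ℕ) : ℝ≥0∞)) ℓ ∂m ≤
      ∑' k : ℕ, ((2 ^ (k + 1) * a : ℕ) : ℝ≥0∞) * m (Ici (((2 ^ k * a : ℕ)) : ℝ)) := by
    refine (lintegral_mono hpt).trans ?_
    rw [lintegral_tsum fun k => (measurable_const.indicator measurableSet_Ici).aemeasurable]
    refine ENNReal.tsum_le_tsum fun k => ?_
    rw [lintegral_indicator measurableSet_Ici, lintegral_const, Measure.restrict_apply_univ]
  refine (mul_le_mul' le_rfl h1).trans ?_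
  rw [← ENNReal.tsum_mul_left]
  have h2 : ∀ k : ℕ, (a : ℝ≥0∞) * (((2 ^ (k + 1) * a : ℕ) : ℝ≥0∞) * m (Ici (((2 ^ k * a : ℕ)) : ℝ)))
      ≤ 2 * (2⁻¹ : ℝ≥0∞) ^ k := by
    intro k
    have h3 := hm (2 ^ k * a) (Nat.one_le_iff_ne_zero.mpr (by positivity))
    have h4 : (a : ℝ≥0∞) * (((2 ^ (k + 1) * a : ℕ) : ℝ≥0∞) * m (Ici (((2 ^ k * a : ℕ)) : ℝ))) =
        2 * ((2 ^ k * (a : ℝ≥0∞) ^ 2) * m (Ici (((2 ^ k * a : ℕ)) : ℝ))) := by
      push_cast
      ring
    rw [h4]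
    refine mul_le_mul' le_rfl ?_
    rw [← ENNReal.inv_pow, ENNReal.le_inv_iff_mul_le]
    refine le_trans (le_of_eq ?_) h3
    push_cast
    ring
  refine (ENNReal.tsum_le_tsum h2).trans ?_
  rw [ENNReal.tsum_mul_left, ENNReal.tsum_geometric, ENNReal.one_sub_inv_two, inv_inv]
  norm_num

/-- the measure of the bad segments -/
theorem bad_bound (m : Measure ℝ) [IsProbabilityMeasure m]
    (hm : ∀ n : ℕ, 1 ≤ n → (n : ℝ≥0∞) ^ 2 * m (Ici (n : ℝ)) ≤ 1) (c : V 2) (r : ℕ) (hr : 1 ≤ r) :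
    ((volume : Measure (E 2)).prod (angleLaw.prod m)) {q | bad c r (key q)} ≤
      ENNReal.ofReal 622261 := by
  obtain ⟨a, ha⟩ : ∃ a, a = max (r - 4) 1 := ⟨_, rfl⟩
  have ha1 : 1 ≤ a := by omega
  rw [Measure.prod_apply_symm (meas_key (bad c r))]
  set g : ℝ → ℝ≥0∞ := fun ℓ => 163216 + (Ici (a : ℝ)).indicator
    (fun ℓ => (255025 * (a : ℝ≥0∞) ^ 2 + 51005 * a * ((⌊ℓ⌋₊ : ℕ) : ℝ≥0∞))) ℓ with hg
  have hfl : Measurable fun ℓ : ℝ => ((⌊ℓ⌋₊ : ℕ) : ℝ≥0∞) :=
    measurable_from_nat.comp Nat.measurable_floor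
  have hgm0 : Measurable fun ℓ : ℝ =>
      (255025 * (a : ℝ≥0∞) ^ 2 + 51005 * a * ((⌊ℓ⌋₊ : ℕ) : ℝ≥0∞)) :=
    measurable_const.add (hfl.const_mul _)
  have hgm : Measurable g := measurable_const.add (hgm0.indicator measurableSet_Ici)
  have hpt : ∀ y : ℝ × ℝ, (volume : Measure (E 2)) ((fun x => (x, y)) ⁻¹' {q | bad c r (key q)}) ≤
      g y.2 := by
    rintro ⟨θ, ℓ⟩
    by_cases hs : r ≤ ⌊ℓ⌋₊ + 4
    · have h1 : (fun x : E 2 => (x, (θ, ℓ))) ⁻¹' {q | bad c r (key q)} ⊆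
          {x | touches (cl x, F x θ ℓ) c (24 * r)} := fun x hx => hx.1
      refine (measure_mono h1).trans ((touches_vol c (24 * r) θ ℓ).trans ?_)
      have h2 := arith ⌊ℓ⌋₊ r a hr ha hs
      refine (Nat.cast_le.mpr h2).trans ?_
      rw [hg]
      by_cases hN : a ≤ ⌊ℓ⌋₊
      · have h3 : ℓ ∈ Ici (a : ℝ) := by
          have h4 : (0 : ℝ) ≤ ℓ := by
            by_contra hneg
            rw [Nat.floor_of_nonpos (by linarith)] at hN
            omega
          exact le_trans (by exact_mod_cast hN) (Nat.floor_le h4)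
        simp only [if_pos hN, indicator_of_mem h3]
        push_cast
        exact le_rfl
      · simp only [if_neg hN]
        push_cast
        exact le_self_add
    · have h1 : (fun x : E 2 => (x, (θ, ℓ))) ⁻¹' {q | bad c r (key q)} = ∅ := by
        ext x
        simp only [mem_preimage, mem_ofPred_eq, mem_empty_iff_false, iff_false]
        rintro ⟨_, h | h⟩
        · exact h (zero_mem_F x θ ℓ)
        · exact hs (not_small_F h)
      rw [h1, measure_empty]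
      exact zero_le
  refine (lintegral_mono hpt).trans ?_
  rw [snd_lintegral m hgm, hg]
  rw [lintegral_add_left measurable_const, lintegral_const, measure_univ, mul_one]
  have h1 : ∫⁻ ℓ, (Ici (a : ℝ)).indicator
      (fun ℓ => (255025 * (a : ℝ≥0∞) ^ 2 + 51005 * a * ((⌊ℓ⌋₊ : ℕ) : ℝ≥0∞))) ℓ ∂m =
      255025 * ((a : ℝ≥0∞) ^ 2 * m (Ici (a : ℝ))) + 51005 * ((a : ℝ≥0∞) *
        ∫⁻ ℓ, (Ici (a : ℝ)).indicator (fun ℓ => ((⌊ℓ⌋₊ : ℕ) : ℝ≥0∞)) ℓ ∂m) := by
    rw [lintegral_indicator measurableSet_Ici, lintegral_indicator measurableSet_Ici,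
      lintegral_add_left measurable_const, lintegral_const, Measure.restrict_apply_univ,
      lintegral_const_mul _ hfl]
    ring
  rw [h1]
  have h2 := hm a ha1
  have h3 := moment m hm a ha1
  calc (163216 : ℝ≥0∞) + (255025 * ((a : ℝ≥0∞) ^ 2 * m (Ici (a : ℝ))) + 51005 * ((a : ℝ≥0∞) *
        ∫⁻ ℓ, (Ici (a : ℝ)).indicator (fun ℓ => ((⌊ℓ⌋₊ : ℕ) : ℝ≥0∞)) ℓ ∂m))
      ≤ 163216 + (255025 * 1 + 51005 * 4) := by gcongr
    _ = ENNReal.ofReal 622261 := by
        rw [show (622261 : ℝ) = ((622261 : ℕ) : ℝ) by norm_num, ENNReal.ofReal_natCast]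
        norm_num

/-- the measure of the segments which start in a box -/
theorem box_bound (m : Measure ℝ) [IsProbabilityMeasure m] (c : V 2) (R : ℕ) :
    ((volume : Measure (E 2)).prod (angleLaw.prod m)) {q | (key q).1 ∈ Bx c R} =
      ENNReal.ofReal ((2 * R + 1) ^ 2) := by
  have h1 : {q : E 2 × (ℝ × ℝ) | (key q).1 ∈ Bx c R} = {y : E 2 | cell 1 y ∈ Bx c R} ×ˢ univ := by
    ext q
    simp [key]
  rw [h1, Measure.prod_prod, measure_univ, mul_one,
    Pool.Agent.Helper56_LP.volume_cells one_pos, card_Bx]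
  congr 1
  push_cast
  ring

theorem Kset_finite (m : Measure ℝ) [IsProbabilityMeasure m] (k : V 2 × Finset (V 2)) :
    ((volume : Measure (E 2)).prod (angleLaw.prod m)) (Kset k) ≠ ∞ := by
  refine ne_top_of_le_ne_top (b := ((volume : Measure (E 2)).prod (angleLaw.prod m))
    {q | (key q).1 ∈ Bx k.1 0}) ?_ (measure_mono ?_)
  · rw [box_bound]
    exact ENNReal.ofReal_ne_top
  · intro q hq
    rw [mem_Kset] at hq
    simp only [mem_ofPred_eq, hq, mem_Bx]
    intro j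
    simp

end

end Pool.Agent.U756.CS
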