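import Pool.Agent.Helper56_LP.Marked
import Pool.Agent.Helper56_LP.Void

/-!
# Marked Poisson processes: independence of the presence of points in disjoint sets
-/

set_option autoImplicit false

namespace Pool.Agent.U756.CS

open MeasureTheory ProbabilityTheory Set Filter
open scoped ENNReal NNReal
open Pool.Agent.Helper712_LP

noncomputable section

/-- A marked Poisson process: the points `x i` with intensity `t`, independent marks `Y i` with
law `W`, independent of the points. -/
structure Mk {Ω : Type} [MeasurableSpace Ω] (P : Measure Ω) (t : ℝ≥0) (x : ℕ → Ω → E 2)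
    {M : Type} [MeasurableSpace M] (Y : ℕ → Ω → M) (W : Measure M) : Prop where
  points : IsPoissonProcess P t x
  meas : ∀ i, Measurable (Y i)
  law : ∀ i, P.map (Y i) = W
  indep : iIndepFun Y P
  indep_points : IndepFun (fun ω i => x i ω) (fun ω i => Y i ω) P

variable {Ω : Type} [MeasurableSpace Ω] {P : Measure Ω} [IsProbabilityMeasure P] {t : ℝ≥0}
  {x : ℕ → Ω → E 2} {M : Type} [MeasurableSpace M] {Y : ℕ → Ω → M} {W : Measure M}
  [IsProbabilityMeasure W]

theorem Mk.measPt (h : Mk P t x Y W) (i : ℕ) : Measurable fun ω => (x i ω, Y i ω) :=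
  (h.points.measurable i).prodMk (h.meas i)

theorem Mk.measAbsent (h : Mk P t x Y W) {A : Set (E 2 × M)} (hA : MeasurableSet A) :
    MeasurableSet {ω | ∀ i, (x i ω, Y i ω) ∉ A} := by
  have h2 : {ω | ∀ i, (x i ω, Y i ω) ∉ A} = ⋂ i, ((fun ω => (x i ω, Y i ω)) ⁻¹' A)ᶜ := by
    ext ω
    simp
  rw [h2]
  exact MeasurableSet.iInter fun i => (h.measPt i hA).compl

theorem Mk.absent (h : Mk P t x Y W) {A : Set (E 2 × M)} (hA : MeasurableSet A)
    (hfin : ((volume : Measure (E 2)).prod W) A ≠ ∞) :
    P {ω | ∀ i, (x i ω, Y i ω) ∉ A} =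
      ENNReal.ofReal (Real.exp (-(t * (((volume : Measure (E 2)).prod W) A).toReal))) := by
  have hind : Measurable (A.indicator (fun _ => (1 : ℝ≥0∞))) := measurable_const.indicator hA
  have hint : ∫⁻ z, ∫⁻ m, A.indicator (fun _ => (1 : ℝ≥0∞)) (z, m) ∂W =
      ((volume : Measure (E 2)).prod W) A := by
    rw [← lintegral_prod _ hind.aemeasurable, lintegral_indicator hA, lintegral_const,
      Measure.restrict_apply_univ, one_mul]
  have h1 := Pool.Agent.Helper56_LP.marked 2 Ω P t x h.points M Y W h.meas h.law h.indep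
    h.indep_points (A.indicator (fun _ => (1 : ℝ≥0∞))) hind
    (fun q => by
      by_cases hq : q ∈ A
      · rw [indicator_of_mem hq]
      · rw [indicator_of_notMem hq]; exact zero_le) (by rw [hint]; exact hfin)
  rw [hint] at h1
  have h3 : ∀ ω, ⨅ m : ℕ, ∏ i ∈ Finset.range m,
      (1 - A.indicator (fun _ => (1 : ℝ≥0∞)) (x i ω, Y i ω)) =
      {ω | ∀ i, (x i ω, Y i ω) ∉ A}.indicator (fun _ => (1 : ℝ≥0∞)) ω := by
    intro ω
    rw [Pool.Agent.Helper56_LP.iInf_prod_indicator A (fun i => (x i ω, Y i ω))]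
    rfl
  simp_rw [h3] at h1
  rw [lintegral_indicator (h.measAbsent hA), lintegral_const, Measure.restrict_apply_univ,
    one_mul] at h1
  exact h1

open Classical in
/-- Is there a point in the set with number `k`? -/
def pres {K : Type} (x : ℕ → Ω → E 2) (Y : ℕ → Ω → M) (A : K → Set (E 2 × M)) (k : K) (ω : Ω) :
    Bool := decide (∃ i, (x i ω, Y i ω) ∈ A k)

omit [MeasurableSpace Ω] [MeasurableSpace M] in
theorem pres_true {K : Type} {A : K → Set (E 2 × M)} {k : K} {ω : Ω} :
    pres x Y A k ω = true ↔ ∃ i, (x i ω, Y i ω) ∈ A k := by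
  unfold pres
  simp

omit [MeasurableSpace Ω] [MeasurableSpace M] in
theorem pres_false {K : Type} {A : K → Set (E 2 × M)} {k : K} {ω : Ω} :
    pres x Y A k ω = false ↔ ∀ i, (x i ω, Y i ω) ∉ A k := by
  unfold pres
  simp

theorem Mk.pres_measSet {K : Type} (h : Mk P t x Y W) {A : K → Set (E 2 × M)}
    (hA : ∀ k, MeasurableSet (A k)) (k : K) : MeasurableSet {ω | pres x Y A k ω = false} := by
  have : {ω | pres x Y A k ω = false} = {ω | ∀ i, (x i ω, Y i ω) ∉ A k} := by
    ext ω
    exact pres_false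
  rw [this]
  exact h.measAbsent (hA k)

theorem Mk.pres_meas {K : Type} (h : Mk P t x Y W) {A : K → Set (E 2 × M)}
    (hA : ∀ k, MeasurableSet (A k)) (k : K) : Measurable (pres x Y A k) := by
  refine measurable_to_bool ?_
  have : pres x Y A k ⁻¹' {true} = {ω | pres x Y A k ω = false}ᶜ := by
    ext ω; simp
  rw [this]
  exact (h.pres_measSet hA k).compl

theorem Mk.joint {K : Type} (h : Mk P t x Y W) {A : K → Set (E 2 × M)}
    (hA : ∀ k, MeasurableSet (A k)) (hfin : ∀ k, ((volume : Measure (E 2)).prod W) (A k) ≠ ∞)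
    (hdis : Pairwise (Function.onFun Disjoint A)) (J : Finset K) :
    P (⋂ k ∈ J, {ω | pres x Y A k ω = false}) = ∏ k ∈ J,
      ENNReal.ofReal (Real.exp (-(t * (((volume : Measure (E 2)).prod W) (A k)).toReal))) := by
  have h1 : (⋂ k ∈ J, {ω | pres x Y A k ω = false}) =
      {ω | ∀ i, (x i ω, Y i ω) ∉ ⋃ k ∈ J, A k} := by
    ext ω
    simp only [mem_iInter, mem_ofPred_eq, mem_iUnion, not_exists]
    constructor
    · intro h i k hk
      exact pres_false.mp (h k hk) i
    · intro h k hk
      exact pres_false.mpr fun i => h i k hk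
  have h2 : ((volume : Measure (E 2)).prod W) (⋃ k ∈ J, A k) =
      ∑ k ∈ J, ((volume : Measure (E 2)).prod W) (A k) :=
    measure_biUnion_finset (fun k _ l _ hkl => hdis hkl) (fun k _ => hA k)
  rw [h1, h.absent (Finset.measurableSet_biUnion J fun k _ => hA k)
    (by rw [h2]; exact (ENNReal.sum_ne_top.mpr fun k _ => hfin k)), h2,
    ENNReal.toReal_sum (fun k _ => hfin k), ← ENNReal.ofReal_prod_of_nonneg
    (fun k _ => (Real.exp_pos _).le), ← Real.exp_sum, Finset.mul_sum, Finset.sum_neg_distrib]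

theorem Mk.pres_indep {K : Type} (h : Mk P t x Y W) {A : K → Set (E 2 × M)}
    (hA : ∀ k, MeasurableSet (A k)) (hfin : ∀ k, ((volume : Measure (E 2)).prod W) (A k) ≠ ∞)
    (hdis : Pairwise (Function.onFun Disjoint A)) : iIndepFun (pres x Y A) P := by
  have h1 : iIndepSet (fun k => {ω | pres x Y A k ω = false}) P := by
    rw [iIndepSet_iff_meas_biInter (h.pres_measSet hA)]
    intro J
    rw [h.joint hA hfin hdis J]
    refine Finset.prod_congr rfl fun k _ => ?_
    have h2 := h.joint hA hfin hdis {k}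
    simp only [Finset.mem_singleton, Set.iInter_iInter_eq_left, Finset.prod_singleton] at h2
    exact h2.symm
  have h3 := iIndepSet.iIndepFun_indicator (β := ℕ) (m := Nat.instMeasurableSpace) h1
  have h4 := h3.comp (fun _ n => decide (n = 0)) (fun _ => measurable_from_nat)
  convert h4 using 1
  funext k ω
  simp only [Function.comp_apply, Set.indicator_apply, Set.mem_ofPred_eq]
  by_cases h : pres x Y A k ω = false
  · rw [if_pos h, h]; simp
  · rw [if_neg h]
    simpa using h

theorem Mk.pres_prob {K : Type} (h : Mk P t x Y W) {A : K → Set (E 2 × M)}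
    (hA : ∀ k, MeasurableSet (A k)) (hfin : ∀ k, ((volume : Measure (E 2)).prod W) (A k) ≠ ∞)
    (k : K) : P {ω | pres x Y A k ω = true} = ENNReal.ofReal
      (1 - Real.exp (-(t * (((volume : Measure (E 2)).prod W) (A k)).toReal))) := by
  have h1 : {ω | pres x Y A k ω = true} = {ω | pres x Y A k ω = false}ᶜ := by
    ext ω; simp
  have h2 : {ω | pres x Y A k ω = false} = {ω | ∀ i, (x i ω, Y i ω) ∉ A k} := by
    ext ω
    exact pres_false
  rw [h1, prob_compl_eq_one_sub (h.pres_measSet hA k), h2, h.absent (hA k) (hfin k),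
    ENNReal.ofReal_sub _ (Real.exp_pos _).le, ENNReal.ofReal_one]

theorem Mk.pres_le {K : Type} (h : Mk P t x Y W) {A : K → Set (E 2 × M)}
    (hA : ∀ k, MeasurableSet (A k)) (hfin : ∀ k, ((volume : Measure (E 2)).prod W) (A k) ≠ ∞)
    (k : K) : P {ω | pres x Y A k ω = true} ≤ t * ((volume : Measure (E 2)).prod W) (A k) := by
  rw [h.pres_prob hA hfin k]
  have h1 : ((t : ℝ≥0∞)) * ((volume : Measure (E 2)).prod W) (A k) =
      ENNReal.ofReal (t * (((volume : Measure (E 2)).prod W) (A k)).toReal) := by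
    rw [ENNReal.ofReal_mul t.coe_nonneg, ENNReal.ofReal_toReal (hfin k), ENNReal.ofReal_coe_nnreal]
  rw [h1]
  refine ENNReal.ofReal_le_ofReal ?_
  have := Real.add_one_le_exp (-(t * (((volume : Measure (E 2)).prod W) (A k)).toReal))
  linarith

end

end Pool.Agent.U756.CS
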