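import Pool.Agent.U756.CS.Upper
import Pool.Agent.U756.CS.LowProb
import Pool.Agent.Helper56_LP.Exists
import Pool.Agent.Helper209_LP.Scale

/-!
# Scaling and existence of the segment model
-/

set_option autoImplicit false

namespace Pool.Agent.U756.CS

open MeasureTheory ProbabilityTheory Set Filter Bornology
open scoped ENNReal NNReal Pointwise
open Pool.Agent.Helper712_LP (E cell HasUnboundedComponent IsPoissonProcess count)

noncomputable section

/-! ### Geometry -/

theorem seg_smul (x : E 2) (θ ℓ a : ℝ) :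
    seg (a • x) θ (a * ℓ) = (fun y : E 2 => a • y) '' seg x θ ℓ := by
  unfold seg
  rw [segment_eq_image', segment_eq_image', image_image]
  congr 1
  funext s
  simp only [add_sub_cancel_left, smul_add, smul_smul]
  congr 2
  ring

theorem unb_smul {S : Set (E 2)} {a : ℝ} (ha : a ≠ 0) (h : HasUnboundedComponent S) :
    HasUnboundedComponent ((fun y : E 2 => a • y) '' S) := by
  obtain ⟨z, hz, hC⟩ := h
  refine ⟨a • z, mem_image_of_mem _ hz, fun hbd => hC ?_⟩
  have h1 := (Homeomorph.smulOfNeZero a ha : E 2 ≃ₜ E 2).image_connectedComponentIn hz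
  have h2 : (fun y : E 2 => a • y) '' connectedComponentIn S z =
      connectedComponentIn ((fun y : E 2 => a • y) '' S) (a • z) := h1
  rw [← h2] at hbd
  rw [isBounded_iff_forall_norm_le] at hbd ⊢
  obtain ⟨M, hM⟩ := hbd
  refine ⟨M / |a|, fun y hy => ?_⟩
  have h3 := hM (a • y) (mem_image_of_mem _ hy)
  rw [norm_smul, Real.norm_eq_abs] at h3
  rw [le_div_iff₀ (abs_pos.mpr ha)]
  linarith

theorem unb_smul_iff {S : Set (E 2)} {a : ℝ} (ha : a ≠ 0) :
    HasUnboundedComponent ((fun y : E 2 => a • y) '' S) ↔ HasUnboundedComponent S := by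
  refine ⟨fun h => ?_, unb_smul ha⟩
  have h1 := unb_smul (inv_ne_zero ha) h
  rw [image_image] at h1
  simpa only [smul_smul, inv_mul_cancel₀ ha, one_smul, image_id'] using h1

/-! ### Scaling of the model -/

/-- scaling of a mark -/
def gs (a : ℝ) (y : ℝ × ℝ) : ℝ × ℝ := (y.1, a * y.2)

theorem gs_meas (a : ℝ) : Measurable (gs a) :=
  measurable_fst.prodMk (measurable_snd.const_mul a)

variable {Ω : Type} [MeasurableSpace Ω] {P : Measure Ω} [IsProbabilityMeasure P] {t : ℝ≥0}
  {x : ℕ → Ω → E 2} {Y : ℕ → Ω → ℝ × ℝ} {m : Measure ℝ} [IsProbabilityMeasure m]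

instance map_prob (a : ℝ) : IsProbabilityMeasure (m.map (fun ℓ => a * ℓ)) :=
  Measure.isProbabilityMeasure_map (measurable_const_mul a).aemeasurable

theorem Mk.scale (h : Mk P t x Y (angleLaw.prod m)) {a : ℝ≥0} (ha : 0 < a) :
    Mk P (t / a ^ 2) (fun i ω => (a : ℝ) • x i ω) (fun i ω => gs a (Y i ω))
      (angleLaw.prod (m.map (fun ℓ => (a : ℝ) * ℓ))) where
  points := Pool.Agent.Helper209_LP.scale 2 Ω P t x h.points a ha
  meas i := (gs_meas a).comp (h.meas i)
  law i := by
    have h1 : P.map (fun ω => gs a (Y i ω)) = (P.map (Y i)).map (gs a) := by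
      rw [Measure.map_map (gs_meas a) (h.meas i)]
      rfl
    rw [h1, h.law i]
    have h2 := Measure.map_prod_map angleLaw m (f := fun θ : ℝ => θ) (g := fun ℓ => (a : ℝ) * ℓ)
      measurable_id (measurable_const_mul (a : ℝ))
    rw [Measure.map_id'] at h2
    exact h2.symm
  indep := h.indep.comp (fun _ => gs a) (fun _ => gs_meas a)
  indep_points := by
    have h1 : Measurable (fun (y : ℕ → E 2) (i : ℕ) => (a : ℝ) • y i) :=
      measurable_pi_iff.mpr fun i => (measurable_pi_apply i).const_smul (a : ℝ)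
    have h2 : Measurable (fun (y : ℕ → ℝ × ℝ) (i : ℕ) => gs a (y i)) :=
      measurable_pi_iff.mpr fun i => (gs_meas a).comp (measurable_pi_apply i)
    exact h.indep_points.comp h1 h2

omit [MeasurableSpace Ω] in
theorem event_scale {a : ℝ} (ha : a ≠ 0) :
    {ω | HasUnboundedComponent (⋃ i, seg (a • x i ω) (gs a (Y i ω)).1 (gs a (Y i ω)).2)} =
      {ω | HasUnboundedComponent (⋃ i, seg (x i ω) (Y i ω).1 (Y i ω).2)} := by
  ext ω
  have h1 : (⋃ i, seg (a • x i ω) (gs a (Y i ω)).1 (gs a (Y i ω)).2) =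
      (fun y : E 2 => a • y) '' (⋃ i, seg (x i ω) (Y i ω).1 (Y i ω).2) := by
    rw [image_iUnion]
    exact iUnion_congr fun i => seg_smul _ _ _ _
  simp only [mem_ofPred_eq]
  rw [h1, unb_smul_iff ha]

/-! ### Existence -/

theorem indep_lift {Ω Ω' ι : Type} {β : ι → Type} [MeasurableSpace Ω] [MeasurableSpace Ω']
    [∀ i, MeasurableSpace (β i)] {P : Measure Ω} {P' : Measure Ω'} {X : (i : ι) → Ω → β i}
    {f : Ω' → Ω} (hf : MeasurePreserving f P' P) (hX : ∀ i, Measurable (X i))
    (h : iIndepFun X P) : iIndepFun (fun i ω => X i (f ω)) P' := by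
  rw [iIndepFun_iff_measure_inter_preimage_eq_mul] at h ⊢
  intro S sets hs
  have h1 := h S hs
  have h2 : ∀ i ∈ S, P' ((fun ω => X i (f ω)) ⁻¹' sets i) = P (X i ⁻¹' sets i) := by
    intro i hi
    exact hf.measure_preimage ((hX i) (hs i hi)).nullMeasurableSet
  rw [Finset.prod_congr rfl h2, ← h1]
  have h3 : (⋂ i ∈ S, (fun ω => X i (f ω)) ⁻¹' sets i) = f ⁻¹' (⋂ i ∈ S, X i ⁻¹' sets i) := by
    ext ω
    simp
  rw [h3]
  exact hf.measure_preimage (Finset.measurableSet_biInter _ fun i hi =>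
    (hX i) (hs i hi)).nullMeasurableSet

theorem poisson_lift {d : ℕ} {Ω Ω' : Type} [MeasurableSpace Ω] [MeasurableSpace Ω'] {P : Measure Ω}
    {P' : Measure Ω'} {lam : ℝ≥0} {x : ℕ → Ω → E d} {f : Ω' → Ω} (hf : MeasurePreserving f P' P)
    (hx : IsPoissonProcess P lam x) : IsPoissonProcess P' lam (fun i ω => x i (f ω)) where
  measurable i := (hx.measurable i).comp hf.measurable
  law A hA hAf := by
    have h1 : count (fun i ω => x i (f ω)) A = count x A ∘ f := rfl
    rw [h1, ← Measure.map_map (Pool.Agent.Helper56_LP.measurable_count hx.measurable hA)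
      hf.measurable, hf.map_eq]
    exact hx.law A hA hAf
  indep ι _ A hA hAf hd :=
    indep_lift (X := fun i => count x (A i)) hf
      (fun i => Pool.Agent.Helper56_LP.measurable_count hx.measurable (hA i))
      (hx.indep ι A hA hAf hd)

/-- The segment model exists. -/
theorem exists_model (m : Measure ℝ) [IsProbabilityMeasure m] {t : ℝ≥0} (ht : 0 < t) :
    ∃ (Ω : Type) (_ : MeasurableSpace Ω) (P : Measure Ω) (_ : IsProbabilityMeasure P)
      (x : ℕ → Ω → E 2) (Y : ℕ → Ω → ℝ × ℝ), Mk P t x Y (angleLaw.prod m) := by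
  obtain ⟨Ω₁, m₁, P₁, hP₁, x, hx⟩ := Pool.Agent.Helper56_LP.exists_ppp 2 (by norm_num) t ht
  set Q : Measure (ℕ → ℝ × ℝ) := Measure.infinitePi (fun _ => angleLaw.prod m) with hQ
  have h1 : MeasurePreserving (Prod.fst : Ω₁ × (ℕ → ℝ × ℝ) → Ω₁) (P₁.prod Q) P₁ :=
    measurePreserving_fst
  have h2 : MeasurePreserving (Prod.snd : Ω₁ × (ℕ → ℝ × ℝ) → _) (P₁.prod Q) Q :=
    measurePreserving_snd
  refine ⟨Ω₁ × (ℕ → ℝ × ℝ), inferInstance, P₁.prod Q, inferInstance,
    fun i ω => x i ω.1, fun i ω => ω.2 i, ?_⟩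
  refine ⟨poisson_lift h1 hx, fun i => (measurable_pi_apply i).comp measurable_snd, ?_, ?_, ?_⟩
  · intro i
    exact ((measurePreserving_eval_infinitePi (fun _ => angleLaw.prod m) i).comp h2).map_eq
  · have h4 : iIndepFun (fun (i : ℕ) (ω : ℕ → ℝ × ℝ) => ω i) Q :=
      iIndepFun_infinitePi (P := fun _ => angleLaw.prod m) (X := fun _ y => y)
        (fun _ => measurable_id)
    exact indep_lift h2 (fun i => measurable_pi_apply i) h4
  · have h5 : Measurable (fun (ω : Ω₁) i => x i ω) := measurable_pi_iff.mpr hx.measurable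
    exact indepFun_prod (μ := P₁) (ν := Q) h5 (measurable_id (α := ℕ → ℝ × ℝ))

end

end Pool.Agent.U756.CS
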