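import Pool.Agent.U756.CS.Meas

/-!
# No percolation at small intensity
-/

set_option autoImplicit false

namespace Pool.Agent.U756.CS

open MeasureTheory ProbabilityTheory Set Filter Topology
open scoped ENNReal NNReal BigOperators
open Pool.Agent.Helper712_LP (HasUnboundedComponent cell)
open Pool.Agent.H592 Pool.Agent.R958.Animal

noncomputable section

/-- no percolation at small intensity, with a bound that depends on `H` only (the proof of
`R958.Animal.upper_gen`) -/
theorem upper_unif (d : ℕ) [NeZero d] (H : ℝ) : ∃ v : ℝ, 0 < v ∧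
    ∀ (w : V d × Finset (V d) → ℝ≥0∞)
    (_ : ∀ (c : V d) (r : ℕ), 1 ≤ r → ∑' k, w k * one? (bad c r k) ≤ ENNReal.ofReal H)
    (_ : ∀ c : V d, ∑' k, w k * one? (k.1 ∈ Bx c 3) ≤ ENNReal.ofReal (7 ^ d))
    (Ω : Type) [MeasurableSpace Ω] (P : Measure Ω) [IsProbabilityMeasure P]
      (ξ : V d × Finset (V d) → Ω → Bool), (∀ k, Measurable (ξ k)) → iIndepFun ξ P →
      (∀ k, P {ω | ξ k ω = true} ≤ ENNReal.ofReal v * w k) →
      P {ω | perc (occ (Qs ξ ω))} = 0 := by
  set H' : ℝ := max H (7 ^ d) with hH'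
  have hH1 : 1 ≤ H' := le_trans (one_le_pow₀ (by norm_num)) (le_max_right _ _)
  set N0 : ℝ := 49 ^ d * 49 ^ d with hN0
  have hN1 : 1 ≤ N0 := by
    rw [hN0]
    have : (1 : ℝ) ≤ 49 ^ d := one_le_pow₀ (by norm_num)
    nlinarith
  set v : ℝ := 1 / (8 * N0 * H') with hv
  have hv0 : 0 < v := by positivity
  have hvH : v * H' * (8 * N0) = 1 := by rw [hv]; field_simp
  refine ⟨v, hv0, ?_⟩
  intro w HB Hbox Ω _ P _ ξ hm hi hp
  set q : ℝ := 2 * v * H' with hq
  have hq0 : 0 < q := by positivity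
  have hstep : ∀ k : ℕ, ∀ c : V d, P {ω | E (Qs ξ ω) c (8 ^ k)} ≤ ENNReal.ofReal q := by
    intro k
    induction k with
    | zero =>
      intro c
      rw [pow_zero]
      refine (E_base' P ξ _ w hp c).trans ?_
      refine (mul_le_mul' le_rfl (Hbox c)).trans ?_
      rw [← ENNReal.ofReal_mul hv0.le]
      refine ENNReal.ofReal_le_ofReal ?_
      have : (7 : ℝ) ^ d ≤ H' := le_max_right _ _
      nlinarith
    | succ k ih =>
      intro c
      have h8 : 1 ≤ 8 ^ k := Nat.one_le_pow _ _ (by norm_num)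
      have h1 := E_rec' P ξ hm hi _ w hp (8 ^ k) h8 _ ih c
      rw [pow_succ, mul_comm]
      refine h1.trans ?_
      calc ENNReal.ofReal v * (∑' κ, w κ * one? (bad c (8 ^ k) κ)) +
            (49 ^ d : ℕ) * (49 ^ d : ℕ) * (ENNReal.ofReal q * ENNReal.ofReal q)
          ≤ ENNReal.ofReal v * ENNReal.ofReal H' + (49 ^ d : ℕ) * (49 ^ d : ℕ) *
            (ENNReal.ofReal q * ENNReal.ofReal q) := by
            gcongr
            exact (HB c _ h8).trans (ENNReal.ofReal_le_ofReal (le_max_left _ _))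
        _ = ENNReal.ofReal (v * H' + N0 * (q * q)) := by
            have h49 : ((49 ^ d : ℕ) : ℝ≥0∞) = ENNReal.ofReal (49 ^ d) := by
              rw [← ENNReal.ofReal_natCast]; push_cast; rfl
            rw [h49, ← ENNReal.ofReal_mul hv0.le, ← ENNReal.ofReal_mul (by positivity),
              ← ENNReal.ofReal_mul hq0.le, ← ENNReal.ofReal_mul (by positivity),
              ← ENNReal.ofReal_add (by positivity) (by positivity)]
        _ ≤ ENNReal.ofReal q := by
            refine ENNReal.ofReal_le_ofReal ?_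
            have h2 : N0 * (q * q) = v * H' / 2 := by
              have : N0 * (q * q) = (v * H' * (8 * N0)) * (v * H') / 2 := by rw [hq]; ring
              rw [this, hvH, one_mul]
            rw [h2, hq]
            nlinarith [mul_pos hv0 (by linarith : (0 : ℝ) < H')]
  have hbadp : ∀ k : ℕ, P {ω | ∃ κ ∈ Qs ξ ω, bad (0 : V d) (8 ^ k) κ} ≤ ENNReal.ofReal (v * H') := by
    intro k
    have h8 : 1 ≤ 8 ^ k := Nat.one_le_pow _ _ (by norm_num)
    refine (union_bound' P ξ _ w hp (bad (0 : V d) (8 ^ k))).trans ?_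
    rw [ENNReal.ofReal_mul hv0.le]
    gcongr
    exact (HB 0 _ h8).trans (ENNReal.ofReal_le_ofReal (le_max_left _ _))
  -- percolation from the box
  set A : ℕ → Set Ω := fun k => {ω | ∃ y ∈ Bx (0 : V d) (8 ^ k),
    {z | conn (occ (Qs ξ ω)) y z}.Infinite} with hA
  have hAmono : Monotone A := by
    intro a b hab ω hω
    obtain ⟨y, hy, hinf⟩ := hω
    refine ⟨y, ?_, hinf⟩
    rw [mem_Bx] at *
    intro j
    refine (hy j).trans ?_
    exact_mod_cast Nat.pow_le_pow_right (by norm_num) hab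
  have hAP : ∀ k, P (A k) ≤ ENNReal.ofReal (3 / 8) := by
    intro k
    have hsub : A k ⊆ {ω | E (Qs ξ ω) 0 (8 ^ k)} ∪ {ω | ∃ κ ∈ Qs ξ ω, bad (0 : V d) (8 ^ k) κ} := by
      rintro ω ⟨y, hy, hinf⟩
      by_cases hb : ∃ κ ∈ Qs ξ ω, bad (0 : V d) (8 ^ k) κ
      · exact Or.inr hb
      · left
        push Not at hb
        obtain ⟨z, hz, hzB⟩ := hinf.exists_notMem_finset (Bx (0 : V d) (2 * 8 ^ k))
        exact cross_local (Nat.one_le_pow _ _ (by norm_num)) hb ⟨y, z, hy, hzB, hz⟩
    refine (measure_mono hsub).trans ((measure_union_le _ _).trans ?_)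
    refine (add_le_add (hstep k 0) (hbadp k)).trans ?_
    rw [← ENNReal.ofReal_add (by positivity) (by positivity)]
    refine ENNReal.ofReal_le_ofReal ?_
    have h3 : v * H' ≤ 1 / 8 := by
      have : v * H' * 8 ≤ v * H' * (8 * N0) := by
        have := mul_pos hv0 (by linarith : (0 : ℝ) < H')
        nlinarith
      rw [hvH] at this
      linarith
    rw [hq]
    nlinarith
  have hperc : {ω | perc (occ (Qs ξ ω))} = ⋃ k, A k := by
    ext ω
    simp only [perc, Set.mem_ofPred_eq, Set.mem_iUnion, hA]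
    constructor
    · rintro ⟨y, hy⟩
      refine ⟨(Finset.univ.sup fun j => (y j).natAbs), y, ?_, hy⟩
      rw [mem_Bx]
      intro j
      have h1 : (y j).natAbs ≤ Finset.univ.sup fun j => (y j).natAbs :=
        Finset.le_sup (f := fun j => (y j).natAbs) (Finset.mem_univ j)
      have h2 : (Finset.univ.sup fun j => (y j).natAbs)
          < 8 ^ (Finset.univ.sup fun j => (y j).natAbs) := Nat.lt_pow_self (by norm_num)
      have h3 : ((y j).natAbs : ℤ) = |y j| := Int.natCast_natAbs _
      simp only [Pi.zero_apply, sub_zero]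
      rw [← h3]
      exact_mod_cast (h1.trans h2.le)
    · rintro ⟨k, y, _, hy⟩
      exact ⟨y, hy⟩
  rcases zero_one P ξ hm hi with h0 | h1
  · exact h0
  · exfalso
    rw [hperc, hAmono.measure_iUnion] at h1
    have : (1 : ℝ≥0∞) ≤ ENNReal.ofReal (3 / 8) := by
      rw [← h1]
      exact iSup_le hAP
    rw [ENNReal.one_le_ofReal] at this
    norm_num at this


/-- cells of nearby points are connected -/
theorem conn_near {U : Set (V 2)} {a b : V 2} (hU : ∀ z : V 2, (∀ j, |z j - a j| ≤ 1) → z ∈ U)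
    (hab : ∀ j, |b j - a j| ≤ 1) : conn U a b := by
  set m : V 2 := ![b 0, a 1] with hm
  have ha : a ∈ U := hU a fun j => by simp
  have hb : b ∈ U := hU b hab
  have hmU : m ∈ U := by
    refine hU m fun j => ?_
    fin_cases j
    · exact hab 0
    · simp [hm]
  have h0 := hab 0
  have h1 := hab 1
  have hc1 : conn U a m := by
    by_cases h : b 0 = a 0
    · have : m = a := by
        funext j
        fin_cases j
        · exact h
        · rfl
      rw [this]
      exact Relation.ReflTransGen.refl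
    · refine Relation.ReflTransGen.single ⟨ha, hmU, ?_⟩
      unfold nb
      rw [Fin.sum_univ_two]
      have h2 : m 0 = b 0 := rfl
      have h3 : m 1 = a 1 := rfl
      rw [h2, h3, sub_self, abs_zero, add_zero, abs_sub_comm]
      have h4 : 0 < |b 0 - a 0| := abs_pos.mpr (sub_ne_zero.mpr h)
      omega
  have hc2 : conn U m b := by
    by_cases h : b 1 = a 1
    · have : m = b := by
        funext j
        fin_cases j
        · rfl
        · exact h.symm
      rw [this]
      exact Relation.ReflTransGen.refl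
    · refine Relation.ReflTransGen.single ⟨hmU, hb, ?_⟩
      unfold nb
      rw [Fin.sum_univ_two]
      have h2 : m 0 = b 0 := rfl
      have h3 : m 1 = a 1 := rfl
      rw [h2, h3, sub_self, abs_zero, zero_add, abs_sub_comm]
      have h4 : 0 < |b 1 - a 1| := abs_pos.mpr (sub_ne_zero.mpr h)
      omega
  exact hc1.trans hc2

theorem norm_le_two (y : Pool.Agent.Helper712_LP.E 2) : ‖y‖ ≤ |y 0| + |y 1| := by
  rw [EuclideanSpace.norm_eq, Fin.sum_univ_two]
  refine Real.sqrt_le_iff.mpr ⟨by positivity, ?_⟩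
  simp only [Real.norm_eq_abs]
  nlinarith [abs_nonneg (y 0), abs_nonneg (y 1)]

theorem abs_coord_le (y : Pool.Agent.Helper712_LP.E 2) (j : Fin 2) : |y j| ≤ ‖y‖ := by
  have := PiLp.norm_apply_le y j
  simpa using this

/-- an unbounded component gives percolation of the cells -/
theorem comp_perc {S : Set (Pool.Agent.Helper712_LP.E 2)} {U : Set (V 2)}
    (hU : ∀ y ∈ S, ∀ z : V 2, (∀ j, |z j - cl y j| ≤ 1) → z ∈ U) (h : HasUnboundedComponent S) :
    perc U := by
  obtain ⟨z0, hz0, hC⟩ := h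
  have hsub : connectedComponentIn S z0 ⊆ S := connectedComponentIn_subset S z0
  have hconn : ∀ y ∈ connectedComponentIn S z0, conn U (cl z0) (cl y) := by
    intro y hy
    refine IsPreconnected.induction₂' isPreconnected_connectedComponentIn
      (fun a b => conn U (cl a) (cl b)) ?_ ?_ (mem_connectedComponentIn hz0) hy
    · intro a ha
      have hball : ∀ᶠ b in 𝓝[connectedComponentIn S z0] a, b ∈ Metric.ball a 1 :=
        nhdsWithin_le_nhds (Metric.ball_mem_nhds a one_pos)
      filter_upwards [hball] with b hb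
      have h1 : ∀ j, |b j - a j| ≤ ((1 : ℕ) : ℝ) := by
        intro j
        have h2 := abs_coord_le (b - a) j
        have h3 : ‖b - a‖ < 1 := by rwa [← dist_eq_norm]
        have h4 : (b - a) j = b j - a j := rfl
        rw [h4] at h2
        push_cast
        linarith
      have h2 : ∀ j, |cl b j - cl a j| ≤ 1 := fun j => by
        have := cl_close h1 j
        simpa using this
      have h3 : conn U (cl a) (cl b) := conn_near (hU a (hsub ha)) h2
      exact ⟨h3, conn_symm h3⟩
    · intro a b c _ _ _ h1 h2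
      exact Relation.ReflTransGen.trans h1 h2
  refine ⟨cl z0, fun hfin => hC ?_⟩
  have himg : (cl '' (connectedComponentIn S z0)).Finite := hfin.subset (by
    rintro _ ⟨y, hy, rfl⟩
    exact hconn y hy)
  rw [isBounded_iff_forall_norm_le]
  obtain ⟨M, hM⟩ := (himg.image fun z : V 2 => (|z 0| + |z 1|)).bddAbove
  refine ⟨M + 2, fun y hy => (norm_le_two y).trans ?_⟩
  have h1 := hM ⟨cl y, ⟨y, hy, rfl⟩, rfl⟩
  have h2 : ∀ j, |y j| ≤ |((cl y j : ℤ) : ℝ)| + 1 := by
    intro j
    rw [cl_apply]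
    have h3 := Int.floor_le (y j)
    have h4 := Int.lt_floor_add_one (y j)
    have h5 : |y j| ≤ |((⌊y j⌋ : ℤ) : ℝ)| + |y j - ((⌊y j⌋ : ℤ) : ℝ)| := by
      have := abs_add_le ((⌊y j⌋ : ℤ) : ℝ) (y j - ((⌊y j⌋ : ℤ) : ℝ))
      simpa using this
    have h6 : |y j - ((⌊y j⌋ : ℤ) : ℝ)| ≤ 1 := by
      rw [abs_le]
      constructor <;> linarith
    linarith
  have h3 := h2 0
  have h4 := h2 1
  have h5 : |((cl y 0 : ℤ) : ℝ)| + |((cl y 1 : ℤ) : ℝ)| ≤ M := by
    exact_mod_cast h1
  linarith

/-- **No percolation at small intensity**, unit scale. -/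
theorem unit_upper : ∃ v : ℝ, 0 < v ∧ ∀ (m : Measure ℝ) [IsProbabilityMeasure m],
    m (Iio 0) = 0 → (∀ n : ℕ, 1 ≤ n → (n : ℝ≥0∞) ^ 2 * m (Ici (n : ℝ)) ≤ 1) →
    ∀ t : ℝ≥0, (t : ℝ) ≤ v → ∀ (Ω : Type) [MeasurableSpace Ω] (P : Measure Ω)
      [IsProbabilityMeasure P] (x : ℕ → Ω → Pool.Agent.Helper712_LP.E 2) (Y : ℕ → Ω → ℝ × ℝ),
      Mk P t x Y (angleLaw.prod m) →
      P {ω | HasUnboundedComponent (⋃ i, seg (x i ω) (Y i ω).1 (Y i ω).2)} = 0 := by
  obtain ⟨v, hv, hmain⟩ := upper_unif 2 622261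
  refine ⟨v, hv, ?_⟩
  intro m _ hm0 hm t ht Ω _ P _ x Y hY
  have hperc := hmain (fun k => ((volume : Measure (Pool.Agent.Helper712_LP.E 2)).prod
      (angleLaw.prod m)) (Kset k))
    (fun c r hr => by
      rw [sum_keys]
      exact bad_bound m hm c r hr)
    (fun c => by
      rw [sum_keys _ (fun k => k.1 ∈ Bx c 3), box_bound]
      refine ENNReal.ofReal_le_ofReal ?_
      norm_num) Ω P (pres x Y Kset) (hY.pres_meas meas_Kset)
    (hY.pres_indep meas_Kset (Kset_finite m) disj_Kset)
    (fun k => (hY.pres_le meas_Kset (Kset_finite m) k).trans (by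
      gcongr
      rw [← ENNReal.ofReal_coe_nnreal]
      exact ENNReal.ofReal_le_ofReal ht))
  have hneg : P (⋃ i, {ω | (Y i ω).2 < 0}) = 0 := by
    refine measure_iUnion_null fun i => ?_
    have h1 : {ω | (Y i ω).2 < 0} = Y i ⁻¹' {y | y.2 < 0} := rfl
    have h2 : MeasurableSet {y : ℝ × ℝ | y.2 < 0} := measurableSet_lt measurable_snd measurable_const
    have h3 : {y : ℝ × ℝ | y.2 < 0} = univ ×ˢ Iio 0 := by
      ext y
      simp
    rw [h1, ← Measure.map_apply (hY.meas i) h2, hY.law i, h3, Measure.prod_prod, hm0, mul_zero]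
  refine measure_mono_null ?_ (measure_union_null hneg hperc)
  intro ω hω
  by_cases hL : ω ∈ ⋃ i, {ω | (Y i ω).2 < 0}
  · exact Or.inl hL
  · right
    have hL' : ∀ i, 0 ≤ (Y i ω).2 := by
      intro i
      by_contra hcon
      exact hL (mem_iUnion.mpr ⟨i, not_le.mp hcon⟩)
    refine comp_perc ?_ hω
    intro y hy z hz
    obtain ⟨i, hi⟩ := mem_iUnion.mp hy
    refine ⟨key (x i ω, Y i ω), ?_, near_mem_F (hL' i) hi hz⟩
    show pres x Y Kset _ ω = true
    rw [pres_true]
    exact ⟨i, mem_Kset.mpr rfl⟩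

end

end Pool.Agent.U756.CS
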